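import Pool.Agent.Helper3.GM.Main
import Pool.Agent.Helper3.GU.One

/-!
# Matrices with prescribed zeros: equivalent statements
-/

set_option autoImplicit false

open CategoryTheory AlgebraicGeometry Pool.Agent.Y116.UV Pool.Agent.Z125.UN Pool.Agent.Q193.LT
  Pool.Agent.Helper3.GU

universe w w' v u w1 w2

namespace Pool.Agent.Helper3.GM

section

variable {R : Type} [CommRing R] {sep : Prop} {P : Sch R → Prop}

/-- The statements: all schemes of finite type (separated if `sep` is true); for the sets `S` of positions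
with at most three positions in each row and each column, the matrices with zeros outside of `S` which
are invertible; have determinant one; have determinant zero; are invertible and have invertible entries
at the positions in `S`. -/
def Stmts (sep : Prop) (P : Sch R → Prop) : List Prop :=
  [∀ X : Sch R, FT sep X → P X,
    ∀ (n : ℕ) (S : Finset (Fin n × Fin n)), Sparse S → P (invS R S),
    ∀ (n : ℕ) (S : Finset (Fin n × Fin n)), Sparse S → P (oneS R S),
    ∀ (n : ℕ) (S : Finset (Fin n × Fin n)), Sparse S → P (zeroS R S),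
    ∀ (n : ℕ) (S : Finset (Fin n × Fin n)), Sparse S → P (torS R S)]

/-- **Matrices with at most three free entries in each row and column are universal.** -/
theorem mat_tfae (hP : Mot sep P) (hR : Presents ({0, 1} : Set R)) : (Stmts sep P).TFAE := by
  have hU := universal_kinds (sep := sep) hR
  rw [Stmts]
  tfae_have 1 → 2 := fun h n S _ => h _ (ft_inv S)
  tfae_have 1 → 3 := fun h n S _ => h _ (ft_one S)
  tfae_have 1 → 4 := fun h n S _ => h _ (ft_zero S)
  tfae_have 1 → 5 := fun h n S _ => h _ (ft_tor S)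
  tfae_have 2 → 1 := fun h => hU 0 P hP fun S hS => h S.1 S.2 hS
  tfae_have 3 → 1 := fun h => hU 1 P hP fun S hS => h S.1 S.2 hS
  tfae_have 4 → 1 := fun h => hU 2 P hP fun S hS => h S.1 S.2 hS
  tfae_have 5 → 1 := fun h => hU 3 P hP fun S hS => h S.1 S.2 hS
  tfae_finish

/-- The statements about a statement `Q`, a property `P` of schemes and a finite list of sets of
positions. -/
def ListStmts (Q : Prop) (P : Sch R → Prop) (L : List Ind) : List Prop :=
  [Q, ∀ X : Sch R, FT True X → P X, ∀ S ∈ L, P (invS R S.2), ∀ S ∈ L, P (oneS R S.2),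
    ∀ S ∈ L, P (zeroS R S.2), ∀ S ∈ L, P (torS R S.2)]

/-- **One variety and finitely many sets of positions.** -/
theorem mat_list (hR : Presents ({0, 1} : Set R)) (X : Sch R) (hX : FT True X) :
    ∃ L : List Ind, (∀ S ∈ L, Sparse S.2) ∧
      ∀ (P : Sch R → Prop), Mot True P → ∀ Q : Prop, (P X → Q) → (Q → ∀ X, FT True X → P X) →
        (ListStmts Q P L).TFAE := by
  obtain ⟨L, hL, h⟩ := finite_listF (universal_kinds (sep := True) hR) X hX
  refine ⟨L, hL, fun P hP Q h1 h2 => ?_⟩
  unfold ListStmts
  tfae_have 1 → 2 := h2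
  tfae_have 2 → 3 := fun h S _ => h _ (ft_inv S.2)
  tfae_have 2 → 4 := fun h S _ => h _ (ft_one S.2)
  tfae_have 2 → 5 := fun h S _ => h _ (ft_zero S.2)
  tfae_have 2 → 6 := fun h S _ => h _ (ft_tor S.2)
  tfae_have 3 → 1 := fun h' => h1 (h P hP 0 h')
  tfae_have 4 → 1 := fun h' => h1 (h P hP 1 h')
  tfae_have 5 → 1 := fun h' => h1 (h P hP 2 h')
  tfae_have 6 → 1 := fun h' => h1 (h P hP 3 h')
  tfae_finish

end

/-! ### Smooth projective schemes over the prime fields -/

section

variable {k : Type} [Field k] {P : Sch k → Prop}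

/-- The statements for smooth projective schemes, all separated schemes of finite type, and matrices. -/
def Stmts' (P : Sch k → Prop) : List Prop :=
  (∀ Y : Sch k, SmoothProj Y → P Y) :: Stmts True P

/-- If smooth projective schemes generate then the six statements are equivalent. -/
theorem mat_cons (hP : Mot True P) (hF : Frac k)
    (hg : (∀ Y : Sch k, SmoothProj Y → P Y) → ∀ X : Sch k, FT True X → P X) :
    (Stmts' P).TFAE := by
  have h := mat_tfae hP (presents_frac hF)
  rw [Stmts', Stmts, List.tfae_cons_cons]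
  exact ⟨⟨hg, fun h Y hY => h Y hY.ft⟩, h⟩

/-- One more statement in front. -/
theorem stmts_cons {Q : Prop} (h : (Stmts True P).TFAE) (hQ : Q ↔ ∀ X : Sch k, FT True X → P X) :
    (Q :: Stmts True P).TFAE := by
  rw [Stmts] at h ⊢
  rw [List.tfae_cons_cons]
  exact ⟨hQ, h⟩

/-- Another form of the first statement. -/
theorem stmts_congr {Q : Prop} (h : (Stmts' P).TFAE)
    (hQ : Q ↔ ∀ Y : Sch k, SmoothProj Y → P Y) : (Q :: Stmts True P).TFAE := by
  rw [Stmts', Stmts, List.tfae_cons_cons] at h
  exact stmts_cons (by rw [Stmts]; exact h.2) (hQ.trans h.1)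

/-- With resolution of singularities. -/
theorem mat_hironaka [PerfectField k] (hk : Hironaka k) (hP : Bnd True P) (hF : Frac k) :
    (Stmts' P).TFAE :=
  mat_cons (mot_of_bnd hP) hF fun h => (all_iff hP).mpr ((sp_all_iff hk hP).mp h)

end

section

variable {k : Type} [Field k] [PerfectField k] {ι : Type} {E : Type w'} [CommRing E]
  {C : PairData.{w} k ι E} {δ τ σ : ι ≃ ι}

/-- Comparison maps of two theories with weight complexes. -/
theorem mat_pair (hg : WeightGen C) (hC : IsPair C δ τ σ) (h1 : BijAll C (aff k k)) (hF : Frac k) :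
    (Stmts' (BijAll C)).TFAE :=
  mat_cons (mot_of_bnd (bnd_pair hC h1)) hF fun h =>
    (all_iff (bnd_pair hC h1)).mpr ((wg_all hg hC h1).mp h)

end

section

variable {k : Type} [Field k] [PerfectField k] {A : Type u} [Category.{v} A] [Abelian A]
  {D : CompactData k A} {S : A → Prop}

/-- Serre classes of the cohomology with compact supports. -/
theorem mat_serre (hD : IsCompact D) (hg : Generated D) (hS : IsTateSerre D S)
    (h1 : ∀ i, S (D.H i (aff k k))) (hF : Frac k) :
    (Stmts' fun X => ∀ i, S (D.H i X)).TFAE :=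
  mat_cons (mot_of_bnd (bnd_compact hD hS h1)) hF fun h =>
    (all_iff (bnd_compact hD hS h1)).mpr ((proj_all_iff hD hg hS h1).mp h)

end

/-- Bijectivity of a comparison map together with finite generation of a third theory. -/
theorem mat_fin {k : Type} [Field k] [PerfectField k] {ι ι' : Type} {E : Type w'} [CommRing E]
    {E' : Type w1} [CommRing E'] [IsNoetherianRing E'] {C : PairData.{w} k ι E}
    {N : ι' → Sch k → ModuleCat.{w2} E'} {δ τ σ : ι ≃ ι} {δ' τ' σ' : ι' ≃ ι'}
    (hg : WeightGen C) (hC : IsPair C δ τ σ) (h1 : BijAll C (aff k k))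
    (hg' : FinGenerated N) (hN : IsTheory N δ' τ' σ') (h1' : FinGen N (aff k k)) (hF : Frac k) :
    (Stmts' fun X => FinGen N X ∧ BijAll C X).TFAE :=
  mat_cons (mot_of_bnd (bnd_and (bnd_finGen hN h1') (bnd_pair hC h1))) hF fun h X hX =>
    ⟨hg' (fun Y hY => (h Y hY).1) X hX, (all_iff (bnd_pair hC h1)).mpr
      ((wg_all hg hC h1).mp fun Y hY => (h Y hY).2) X hX⟩

/-- One smooth projective scheme, comparison maps over prime fields, and finitely many sets of
positions. -/
theorem mat_list_pair {k : Type} [Field k] [PerfectField k] (hF : Frac k) (S : Sch k)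
    (hS : SmoothProj S) :
    ∃ L : List Ind, (∀ S ∈ L, Sparse S.2) ∧
      ∀ {ι : Type} {E : Type w'} [CommRing E] (C : PairData.{w} k ι E) {δ τ σ : ι ≃ ι},
        WeightGen C → IsPair C δ τ σ → BijAll C (aff k k) →
        ∀ Q : Prop, (BijAll C S → Q) → (Q → ∀ Y, SmoothProj Y → BijAll C Y) →
        (ListStmts Q (BijAll C) L).TFAE := by
  obtain ⟨L, hL, h⟩ := mat_list (presents_frac hF) S hS.ft
  exact ⟨L, hL, fun {ι E} _ C {δ τ σ} hg hC h1 Q hQ1 hQ2 => h (BijAll C)
    (mot_of_bnd (bnd_pair hC h1)) Q hQ1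
    fun hQ => (all_iff (bnd_pair hC h1)).mpr ((wg_all hg hC h1).mp (hQ2 hQ))⟩

end Pool.Agent.Helper3.GM
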