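import Pool.Agent.Helper3.GM.App

/-!
# Matrices with prescribed zeros: finitely many sets of positions for each scheme
-/

set_option autoImplicit false

open CategoryTheory AlgebraicGeometry Pool.Agent.Y116.UV Pool.Agent.Z125.UN Pool.Agent.Q193.LT
  Pool.Agent.Helper3.GU

namespace Pool.Agent.Helper3.GM

/-- One of the four statements for the sets of positions in a finite list. -/
def OneKind {R : Type} [CommRing R] (P : Sch R → Prop)
    (L : List (Σ n : ℕ, Finset (Fin n × Fin n))) : Prop :=
  (∀ S ∈ L, P (invS R S.2)) ∨ (∀ S ∈ L, P (oneS R S.2)) ∨ (∀ S ∈ L, P (zeroS R S.2)) ∨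
    ∀ S ∈ L, P (torS R S.2)

/-- **Finitely many sets of positions for each scheme.** -/
theorem mat_finite {R : Type} [CommRing R] {sep : Prop} (hR : Presents ({0, 1} : Set R)) (X : Sch R)
    (hX : FT sep X) :
    ∃ L : List (Σ n : ℕ, Finset (Fin n × Fin n)), (∀ S ∈ L, Sparse S.2) ∧
      ∀ P : Sch R → Prop, Mot sep P → OneKind P L → P X := by
  obtain ⟨L, hL, h⟩ := finite_listF (universal_kinds (sep := sep) hR) X hX
  refine ⟨L, hL, fun P hP h1 => ?_⟩
  rcases h1 with h1 | h1 | h1 | h1
  · exact h P hP 0 h1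
  · exact h P hP 1 h1
  · exact h P hP 2 h1
  · exact h P hP 3 h1

end Pool.Agent.Helper3.GM
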