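import Pool.Agent.Helper3.GU.Enc

/-!
# Invertible matrices with prescribed zeros and vectors with prescribed zeros and incidences
-/

set_option autoImplicit false

open CategoryTheory AlgebraicGeometry Pool.Agent.Y116.UV Pool.Agent.Q282.UK Matrix
  Pool.Agent.Helper3.GU

namespace Pool.Agent.Helper3.GM

/-- The positions of a square matrix that may be different from zero, the supports of the vectors `g k`,
and the entries of the products `N g_k` that are zero. -/
structure GPat (V K : Type) : Type where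
  /-- the positions of the matrix -/
  adj : V → V → Prop
  /-- the supports of the vectors -/
  S : K → V → Prop
  /-- the zeros of the products -/
  E : K → V → Prop

/-- The matrix `N` and the vectors `g k` satisfy the conditions of the pattern. -/
structure GPat.Ok {V K : Type} [Fintype V] (q : GPat V K) {C : Type} [CommRing C]
    (N : Matrix V V C) (g : K → V → C) : Prop where
  zero : ∀ a b, ¬ q.adj a b → N a b = 0
  supp : ∀ k v, ¬ q.S k v → g k v = 0
  inc : ∀ k v, q.E k v → (N *ᵥ g k) v = 0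

lemma GPat.Ok.map {V K : Type} [Fintype V] {q : GPat V K} {C D : Type} [CommRing C] [CommRing D]
    (f : C →+* D) {N : Matrix V V C} {g : K → V → C} (h : q.Ok N g) :
    q.Ok (N.map f) (fun k v => f (g k v)) :=
  ⟨fun a b h1 => by
      change f _ = 0
      rw [h.zero a b h1, map_zero], fun k v h1 => by
      change f _ = 0
      rw [h.supp k v h1, map_zero], fun k v h1 => by
      have h2 := RingHom.map_mulVec f N (g k) v
      rw [h.inc k v h1, map_zero] at h2
      exact h2.symm⟩

/-- The functor of the pairs `(N, g)`. -/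
def GT {V K : Type} [Fintype V] (q : GPat V K) : PF where
  pts C _ := {x : Matrix V V C × (K → V → C) // q.Ok x.1 x.2}
  map f x := ⟨(x.1.1.map f, fun k v => f (x.1.2 k v)), x.2.map f⟩
  map_id _ := rfl
  map_comp _ _ _ := rfl

variable {R : Type} [CommRing R] {sep : Prop} {P : Sch R → Prop}

lemma hasRep_GT {V K : Type} [Fintype V] [Finite K] (q : GPat V K) : HasRep R (GT q) := by
  let F : PF := PT.aff ((V × V) ⊕ (K × V))
  let m : ∀ {C : Type} [CommRing C], F.pts C → Matrix V V C := fun p a b => p.2 (Sum.inl (a, b))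
  let v : ∀ {C : Type} [CommRing C], F.pts C → K → V → C := fun p k b => p.2 (Sum.inr (k, b))
  let e : {p : V × V // ¬ q.adj p.1 p.2} ⊕
      ({p : K × V // ¬ q.S p.1 p.2} ⊕ {p : K × V // q.E p.1 p.2}) → NF F := Sum.elim
    (fun p => ⟨fun x => m x p.1.1 p.1.2, fun f x => rfl⟩)
    (Sum.elim
      (fun p => ⟨fun x => v x p.1.1 p.1.2, fun f x => rfl⟩)
      (fun p => ⟨fun x => (m x *ᵥ v x p.1.1) p.1.2, fun f x =>
        (RingHom.map_mulVec f (m x) (v x p.1.1) p.1.2).symm⟩))
  refine ((hasRep_PT.aff ((V × V) ⊕ (K × V))).zeros e).congr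
    ⟨fun x => ⟨(m x.1, v x.1), ?_, ?_, ?_⟩,
      fun y => ⟨((), Sum.elim (fun p => y.1.1 p.1 p.2) fun p => y.1.2 p.1 p.2), ?_⟩, ?_,
      fun _ => rfl, fun _ _ => rfl⟩
  · intro a b h
    exact x.2 (Sum.inl ⟨(a, b), h⟩)
  · intro k b h
    exact x.2 (Sum.inr (Sum.inl ⟨(k, b), h⟩))
  · intro k b h
    exact x.2 (Sum.inr (Sum.inr ⟨(k, b), h⟩))
  · rintro (⟨⟨a, b⟩, h⟩ | (⟨⟨k, b⟩, h⟩ | ⟨⟨k, b⟩, h⟩))
    · exact y.2.zero a b h
    · exact y.2.supp k b h
    · exact y.2.inc k b h
  · intro C _ x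
    apply Subtype.ext
    apply Prod.ext
    · rfl
    · funext j
      rcases j with j | j <;> rfl

section

variable {V K : Type} [Fintype V] [DecidableEq V]

/-- The determinant. -/
def detG (q : GPat V K) : NF (GT q) where
  fn x := x.1.1.det
  nat f x := GU.det_map f x.1.1

/-- forget the vector `none` -/
def GPat.some' (q : GPat V (Option K)) : GPat V K where
  adj := q.adj
  S k := q.S (some k)
  E k := q.E (some k)

/-- Matrices with one more column, and `K` vectors. -/
def RT (q : GPat V (Option K)) : PF where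
  pts C _ := {x : (GT q.some').pts C × (V → C) // ∀ v, q.E none v → x.2 v = 0}
  map f x := ⟨((GT q.some').map f x.1.1, fun v => f (x.1.2 v)), fun v h => by
    change f _ = 0
    rw [x.2 v h, map_zero]⟩
  map_id _ := rfl
  map_comp _ _ _ := rfl

omit [DecidableEq V] in
lemma hasRep_RT [Finite K] (q : GPat V (Option K)) : HasRep R (RT q) := by
  let e : {v : V // q.E none v} → NF ((GT q.some').aff V) := fun v =>
    ⟨fun p => p.2 v.1, fun _ _ => rfl⟩
  exact (((hasRep_GT q.some').aff V).zeros e).congr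
    ⟨fun x => ⟨x.1, fun v h => x.2 ⟨v, h⟩⟩, fun y => ⟨y.1, fun v => y.2 v.1 v.2⟩,
      fun _ => rfl, fun _ => rfl, fun _ _ => rfl⟩

/-- The coordinates of the kernel vector. -/
def cooF {C : Type} [CommRing C] (N : Matrix V V C) (u : V → C) : V ⊕ Unit → C :=
  Sum.elim (fun v => -(N.adjugate *ᵥ u) v) (fun _ => N.det)

lemma cooF_map {C D : Type} [CommRing C] [CommRing D] (f : C →+* D) (N : Matrix V V C) (u : V → C)
    (j : V ⊕ Unit) : cooF (N.map f) (fun v => f (u v)) j = f (cooF N u j) := by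
  rcases j with v | v
  · have h := mulVec_map f N u v
    calc cooF (N.map f) (fun v => f (u v)) (Sum.inl v) =
        -((N.map f).adjugate *ᵥ (fun v => f (u v))) v := rfl
      _ = -f ((N.adjugate *ᵥ u) v) := by rw [h]
      _ = f (-(N.adjugate *ᵥ u) v) := (map_neg f _).symm
  · exact GU.det_map f N

/-- The coordinates of the kernel vector. -/
def cooR (q : GPat V (Option K)) (j : V ⊕ Unit) : NF (RT q) where
  fn x := cooF x.1.1.1.1 x.1.2 j
  nat f x := cooF_map f x.1.1.1.1 x.1.2 j

lemma sum_cooR (q : GPat V (Option K)) {C : Type} [CommRing C] (x : (RT q).pts C) (w : V → C)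
    (d : C) : (bd x.1.1.1.1 x.1.2 w d).det =
      ∑ j, (cooR q j).fn x * Sum.elim w (fun _ => d) j := by
  rw [det_bd, Fintype.sum_sum_type]
  have h1 : ∑ v, (cooR q (Sum.inl v)).fn x * w v = -(w ⬝ᵥ (x.1.1.1.1.adjugate *ᵥ x.1.2)) := by
    rw [dotProduct, ← Finset.sum_neg_distrib]
    apply Finset.sum_congr rfl
    intro v _
    change -(x.1.1.1.1.adjugate *ᵥ x.1.2) v * w v = _
    ring
  have h2 : ∑ j : Unit, (cooR q (Sum.inr j)).fn x * Sum.elim w (fun _ => d) (Sum.inr j) =
      d * x.1.1.1.1.det := by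
    rw [Fintype.sum_unique]
    change x.1.1.1.1.det * d = _
    ring
  rw [h2]
  change _ = ∑ v, (cooR q (Sum.inl v)).fn x * w v + _
  rw [h1]
  ring

/-- Matrices with one more column and one more row supported in `J`, with invertible determinant. -/
def BJ (q : GPat V (Option K)) (J : V ⊕ Unit → Prop) : PF where
  pts C _ := {x : (RT q).pts C × (V ⊕ Unit → C) // (∀ j, ¬ J j → x.2 j = 0) ∧
    IsUnit (∑ j, (cooR q j).fn x.1 * x.2 j)}
  map f x := ⟨((RT q).map f x.1.1, fun j => f (x.1.2 j)), fun j h => by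
    change f _ = 0
    rw [x.2.1 j h, map_zero], by
    have h := x.2.2.map f
    rw [map_sum] at h
    simp only [map_mul, ← (cooR q _).nat] at h
    exact h⟩
  map_id _ := rfl
  map_comp _ _ _ := rfl

open Classical in
/-- the bordered matrices and the affine bundle -/
noncomputable def bjIso (q : GPat V (Option K)) (J : V ⊕ Unit → Prop) :
    PIso (BJ q J) (((RT q).jou (fun j : {j // J j} => cooR q j.1)).tor PUnit) where
  fwd {C} _ x := (⟨(x.1.1, fun j => Ring.inverse (∑ j, (cooR q j).fn x.1.1 * x.1.2 j) * x.1.2 j.1), by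
      have h1 := sum_ext0 (J := J) (fun j => (cooR q j).fn x.1.1) (fun j : {j // J j} => x.1.2 j.1)
      rw [ext0_res x.1.2 x.2.1] at h1
      have h2 : ∀ j : {j // J j}, (cooR q j.1).fn x.1.1 *
          (Ring.inverse (∑ j, (cooR q j).fn x.1.1 * x.1.2 j) * x.1.2 j.1) =
          Ring.inverse (∑ j, (cooR q j).fn x.1.1 * x.1.2 j) * ((cooR q j.1).fn x.1.1 * x.1.2 j.1) :=
        fun j => by ring
      change ∑ j : {j // J j}, (cooR q j.1).fn x.1.1 *
          (Ring.inverse (∑ j, (cooR q j).fn x.1.1 * x.1.2 j) * x.1.2 j.1) = 1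
      simp only [h2]
      rw [← Finset.mul_sum, ← h1]
      exact Ring.inverse_mul_cancel _ x.2.2⟩, fun _ => x.2.2.unit)
  bwd {C} _ y := ⟨(y.1.1.1, fun j => ((y.2 ⟨⟩ : Cˣ) : C) * ext0 J y.1.1.2 j), fun j h => by
      change _ * ext0 J y.1.1.2 j = 0
      rw [ext0_not _ j h, mul_zero], by
      have h1 := sum_ext0 (J := J) (fun j => (cooR q j).fn y.1.1.1) y.1.1.2
      have h2 : ∑ l : {j // J j}, (cooR q l.1).fn y.1.1.1 * y.1.1.2 l = 1 := y.1.2
      have h3 : ∑ j, (cooR q j).fn y.1.1.1 * (((y.2 ⟨⟩ : Cˣ) : C) * ext0 J y.1.1.2 j) =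
          ((y.2 ⟨⟩ : Cˣ) : C) := by
        have h4 : ∀ j, (cooR q j).fn y.1.1.1 * (((y.2 ⟨⟩ : Cˣ) : C) * ext0 J y.1.1.2 j) =
          ((y.2 ⟨⟩ : Cˣ) : C) * ((cooR q j).fn y.1.1.1 * ext0 J y.1.1.2 j) := fun j => by ring
        simp only [h4]
        rw [← Finset.mul_sum, h1, h2, mul_one]
      change IsUnit (∑ j, (cooR q j).fn y.1.1.1 * (((y.2 ⟨⟩ : Cˣ) : C) * ext0 J y.1.1.2 j))
      rw [h3]
      exact Units.isUnit _⟩
  left {C} _ x := by
    apply Subtype.ext
    apply Prod.ext
    · rfl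
    · funext j
      change (x.2.2.unit : C) * ext0 J (fun j : {j // J j} =>
        Ring.inverse (∑ j, (cooR q j).fn x.1.1 * x.1.2 j) * x.1.2 j.1) j = x.1.2 j
      by_cases h : J j
      · rw [ext0_of _ ⟨j, h⟩, ← mul_assoc]
        change (∑ j, (cooR q j).fn x.1.1 * x.1.2 j) * _ * _ = _
        rw [Ring.mul_inverse_cancel _ x.2.2, one_mul]
      · rw [ext0_not _ j h, x.2.1 j h, mul_zero]
  right {C} _ y := by
    have h1 := sum_ext0 (J := J) (fun j => (cooR q j).fn y.1.1.1) y.1.1.2
    have h2 : ∑ l : {j // J j}, (cooR q l.1).fn y.1.1.1 * y.1.1.2 l = 1 := y.1.2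
    have h3 : ∑ j, (cooR q j).fn y.1.1.1 * (((y.2 ⟨⟩ : Cˣ) : C) * ext0 J y.1.1.2 j) =
        ((y.2 ⟨⟩ : Cˣ) : C) := by
      have h4 : ∀ j, (cooR q j).fn y.1.1.1 * (((y.2 ⟨⟩ : Cˣ) : C) * ext0 J y.1.1.2 j) =
        ((y.2 ⟨⟩ : Cˣ) : C) * ((cooR q j).fn y.1.1.1 * ext0 J y.1.1.2 j) := fun j => by ring
      simp only [h4]
      rw [← Finset.mul_sum, h1, h2, mul_one]
    apply Prod.ext
    · apply Subtype.ext
      apply Prod.ext
      · rfl
      · funext j
        change Ring.inverse (∑ j, (cooR q j).fn y.1.1.1 * (((y.2 ⟨⟩ : Cˣ) : C) *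
          ext0 J y.1.1.2 j)) * (((y.2 ⟨⟩ : Cˣ) : C) * ext0 J y.1.1.2 j.1) = y.1.1.2 j
        rw [h3, ext0_of, ← mul_assoc, Ring.inverse_mul_cancel _ (Units.isUnit _), one_mul]
    · funext _
      apply Units.ext
      exact h3
  nat {C D} _ _ f x := by
    have hs : ∑ j, (cooR q j).fn ((RT q).map f x.1.1) * f (x.1.2 j) =
        f (∑ j, (cooR q j).fn x.1.1 * x.1.2 j) := by
      rw [map_sum]
      apply Finset.sum_congr rfl
      intro j _
      rw [(cooR q j).nat, map_mul]
    apply Prod.ext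
    · apply Subtype.ext
      apply Prod.ext
      · rfl
      · funext j
        change Ring.inverse (∑ j, (cooR q j).fn ((RT q).map f x.1.1) * f (x.1.2 j)) *
          f (x.1.2 j.1) = f (_ * _)
        rw [hs, rinv_map f x.2.2, map_mul]
    · funext _
      apply Units.ext
      exact hs

/-- The extended pattern: one more column, and one more row supported in `J`. -/
def GPat.ext (q : GPat V (Option K)) (J : V ⊕ Unit → Prop) : GPat (V ⊕ Unit) K where
  adj a b := Sum.elim (fun a => Sum.elim (fun b => q.adj a b) (fun _ => ¬ q.E none a) b)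
    (fun _ => J b) a
  S k := Sum.elim (q.S (some k)) fun _ => False
  E k := Sum.elim (q.E (some k)) fun _ => False

omit [Fintype V] [DecidableEq V] in
lemma bd_of {C : Type} [CommRing C] (A : Matrix (V ⊕ Unit) (V ⊕ Unit) C) :
    bd (A.submatrix Sum.inl Sum.inl) (fun v => A (Sum.inl v) (Sum.inr ()))
      (fun v => A (Sum.inr ()) (Sum.inl v)) (A (Sum.inr ()) (Sum.inr ())) = A := by
  ext i j
  rcases i with i | i <;> rcases j with j | j <;> rfl

omit [Fintype V] [DecidableEq V] in
lemma bd_of' {C : Type} [CommRing C] (N : Matrix V V C) (u : V → C) (c : V ⊕ Unit → C) :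
    bd N u (fun v => c (Sum.inl v)) (c (Sum.inr ())) =
      of fun a b => Sum.elim (fun a => Sum.elim (fun b => N a b) (fun _ => u a) b)
        (fun _ => c b) a := by
  ext i j
  rcases i with i | i <;> rcases j with j | j <;> rfl

omit [Fintype V] [DecidableEq V] in
lemma elim_inl_inr {C : Type} (c : V ⊕ Unit → C) :
    Sum.elim (fun v => c (Sum.inl v)) (fun _ => c (Sum.inr ())) = c := by
  funext j
  rcases j with j | j <;> rfl

/-- the functor of the extended pattern -/
def extG (q : GPat V (Option K)) (J : V ⊕ Unit → Prop) :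
    PIso ((GT (q.ext J)).unit (detG (q.ext J))) (BJ q J) where
  fwd {C} _ x := ⟨(⟨(⟨(x.1.1.1.submatrix Sum.inl Sum.inl, fun k v => x.1.1.2 k (Sum.inl v)),
      fun a b h => x.1.2.zero (Sum.inl a) (Sum.inl b) h, fun k v h => x.1.2.supp k (Sum.inl v) h,
      fun k v h => by
        have h1 := x.1.2.inc k (Sum.inl v) h
        rw [GU.sub_mulVec, x.1.2.supp k (Sum.inr ()) (fun h => h), mul_zero, add_zero] at h1
        exact h1⟩, fun v => x.1.1.1 (Sum.inl v) (Sum.inr ())), fun v h =>
        x.1.2.zero (Sum.inl v) (Sum.inr ()) fun h1 => h1 h⟩, fun j => x.1.1.1 (Sum.inr ()) j),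
    fun j h => x.1.2.zero (Sum.inr ()) j h, by
      have h := x.2
      change IsUnit (x.1.1.1).det at h
      rw [← bd_of x.1.1.1] at h
      let t : (RT q).pts C := ⟨(⟨(x.1.1.1.submatrix Sum.inl Sum.inl, fun k v => x.1.1.2 k (Sum.inl v)),
        fun a b h => x.1.2.zero (Sum.inl a) (Sum.inl b) h, fun k v h => x.1.2.supp k (Sum.inl v) h,
        fun k v h => by
          have h1 := x.1.2.inc k (Sum.inl v) h
          rw [GU.sub_mulVec, x.1.2.supp k (Sum.inr ()) (fun h => h), mul_zero, add_zero] at h1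
          exact h1⟩, fun v => x.1.1.1 (Sum.inl v) (Sum.inr ())), fun v h =>
          x.1.2.zero (Sum.inl v) (Sum.inr ()) fun h1 => h1 h⟩
      have h2 := sum_cooR q t (fun v => x.1.1.1 (Sum.inr ()) (Sum.inl v))
        (x.1.1.1 (Sum.inr ()) (Sum.inr ()))
      rw [elim_inl_inr (fun j => x.1.1.1 (Sum.inr ()) j)] at h2
      exact h2 ▸ h⟩
  bwd {C} _ y := ⟨⟨(bd y.1.1.1.1.1.1 y.1.1.1.2 (fun v => y.1.2 (Sum.inl v)) (y.1.2 (Sum.inr ())),
      fun k => Sum.elim (y.1.1.1.1.1.2 k) fun _ => 0), by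
      rintro (a | a) (b | b) h
      · exact y.1.1.1.1.2.zero a b h
      · exact y.1.1.2 a (not_not.1 h)
      · exact y.2.1 (Sum.inl b) h
      · exact y.2.1 (Sum.inr b) h, by
      rintro k (v | v) h
      · exact y.1.1.1.1.2.supp k v h
      · rfl, by
      rintro k (v | v) h
      · rw [bd_mulVec_inl]
        have h1 := y.1.1.1.1.2.inc k v h
        simpa using h1
      · exact h.elim⟩, by
      change IsUnit (bd y.1.1.1.1.1.1 y.1.1.1.2 (fun v => y.1.2 (Sum.inl v))
        (y.1.2 (Sum.inr ()))).det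
      rw [sum_cooR q y.1.1, elim_inl_inr]
      exact y.2.2⟩
  left x := by
    apply Subtype.ext
    apply Subtype.ext
    apply Prod.ext
    · exact bd_of x.1.1.1
    · funext k v
      rcases v with v | v
      · rfl
      · exact (x.1.2.supp k (Sum.inr v) (fun h => h)).symm
  right y := by
    apply Subtype.ext
    apply Prod.ext
    · rfl
    · funext j
      rcases j with j | j <;> rfl
  nat f x := rfl

/-- the coordinates that vanish -/
def GPat.off (q : GPat V (Option K)) : V ⊕ Unit → Prop :=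
  Sum.elim (fun a => ¬ q.S none a) fun _ => False

/-- the coordinates that vanish, and the last one -/
def GPat.off' (q : GPat V (Option K)) : V ⊕ Unit → Prop := fun j => q.off j ∨ j = Sum.inr ()

lemma mul_adj_mulVec {C : Type} [CommRing C] (N : Matrix V V C) (u : V → C) :
    N *ᵥ (N.adjugate *ᵥ u) = N.det • u := by
  rw [mulVec_mulVec, mul_adjugate, smul_mulVec, one_mulVec]

lemma adj_mul_mulVec {C : Type} [CommRing C] (N : Matrix V V C) (u : V → C) :
    N.adjugate *ᵥ (N *ᵥ u) = N.det • u := by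
  rw [mulVec_mulVec, adjugate_mul, smul_mulVec, one_mulVec]

/-- the bijection for the induction step -/
noncomputable def kerG (q : GPat V (Option K)) :
    PIso ((RT q).zu (fun j : {j // q.off j} => cooR q j.1) (cooR q (Sum.inr ())))
      ((GT q).unit (detG q)) where
  fwd {C} _ x := ⟨⟨(x.1.1.1.1.1, fun k => k.elim
      (Ring.inverse x.1.1.1.1.1.det • (x.1.1.1.1.1.adjugate *ᵥ x.1.1.2)) x.1.1.1.1.2),
      fun a b h => x.1.1.1.2.zero a b h, by
        rintro (_ | k) v h
        · have h1 : -(x.1.1.1.1.1.adjugate *ᵥ x.1.1.2) v = 0 := x.2.1 ⟨Sum.inl v, h⟩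
          rw [neg_eq_zero] at h1
          change Ring.inverse x.1.1.1.1.1.det * (x.1.1.1.1.1.adjugate *ᵥ x.1.1.2) v = 0
          rw [h1, mul_zero]
        · exact x.1.1.1.2.supp k v h, by
        rintro (_ | k) v h
        · change (x.1.1.1.1.1 *ᵥ (Ring.inverse x.1.1.1.1.1.det •
            (x.1.1.1.1.1.adjugate *ᵥ x.1.1.2))) v = 0
          rw [mulVec_smul, mul_adj_mulVec, smul_smul]
          change _ * x.1.1.2 v = 0
          rw [x.1.2 v h, mul_zero]
        · exact x.1.1.1.2.inc k v h⟩, x.2.2⟩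
  bwd {C} _ y := ⟨⟨(⟨(y.1.1.1, fun k => y.1.1.2 (some k)), y.1.2.zero, fun k => y.1.2.supp (some k),
      fun k => y.1.2.inc (some k)⟩, y.1.1.1 *ᵥ y.1.1.2 none), y.1.2.inc none⟩, by
      rintro ⟨v | v, h⟩
      · change -(y.1.1.1.adjugate *ᵥ (y.1.1.1 *ᵥ y.1.1.2 none)) v = 0
        rw [adj_mul_mulVec]
        change -(y.1.1.1.det * y.1.1.2 none v) = 0
        rw [y.1.2.supp none v h, mul_zero, neg_zero]
      · exact h.elim, y.2⟩
  left {C} _ x := by
    apply Subtype.ext
    apply Subtype.ext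
    apply Prod.ext
    · rfl
    · change x.1.1.1.1.1 *ᵥ (Ring.inverse x.1.1.1.1.1.det •
            (x.1.1.1.1.1.adjugate *ᵥ x.1.1.2)) = x.1.1.2
      have hu : IsUnit x.1.1.1.1.1.det := x.2.2
      rw [mulVec_smul, mul_adj_mulVec, smul_smul, Ring.inverse_mul_cancel _ hu, one_smul]
  right {C} _ y := by
    apply Subtype.ext
    apply Subtype.ext
    apply Prod.ext
    · rfl
    · funext k
      rcases k with _ | k
      · change Ring.inverse y.1.1.1.det • (y.1.1.1.adjugate *ᵥ (y.1.1.1 *ᵥ y.1.1.2 none)) =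
          y.1.1.2 none
        have hu : IsUnit y.1.1.1.det := y.2
        rw [adj_mul_mulVec, smul_smul, Ring.inverse_mul_cancel _ hu, one_smul]
      · rfl
  nat {C D} _ _ f x := by
    apply Subtype.ext
    apply Subtype.ext
    apply Prod.ext
    · rfl
    · funext k v
      rcases k with _ | k
      · change Ring.inverse (x.1.1.1.1.1.map f).det *
          ((x.1.1.1.1.1.map f).adjugate *ᵥ fun v => f (x.1.1.2 v)) v = f (_ * _)
        have hu : IsUnit x.1.1.1.1.1.det := x.2.2
        rw [GU.det_map, mulVec_map, rinv_map f hu, map_mul]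
      · rfl

/-- Renaming the vectors. -/
def gpK {K' : Type} (e : K ≃ K') (q : GPat V K') : PIso
    ((GT (⟨q.adj, fun k => q.S (e k), fun k => q.E (e k)⟩ : GPat V K)).unit (detG _))
    ((GT q).unit (detG q)) where
  fwd x := ⟨⟨(x.1.1.1, fun k => x.1.1.2 (e.symm k)), ⟨x.1.2.zero, fun k v h =>
    x.1.2.supp (e.symm k) v (by
      change ¬ q.S (e (e.symm k)) v
      rwa [e.apply_symm_apply]), fun k v h => x.1.2.inc (e.symm k) v (by
      change q.E (e (e.symm k)) v
      rwa [e.apply_symm_apply])⟩⟩, x.2⟩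
  bwd y := ⟨⟨(y.1.1.1, fun k => y.1.1.2 (e k)), ⟨y.1.2.zero, fun k v h =>
    y.1.2.supp (e k) v h, fun k v h => y.1.2.inc (e k) v h⟩⟩, y.2⟩
  left x := by
    apply Subtype.ext
    apply Subtype.ext
    apply Prod.ext
    · rfl
    · funext k
      exact congrArg x.1.1.2 (e.symm_apply_apply k)
  right y := by
    apply Subtype.ext
    apply Subtype.ext
    apply Prod.ext
    · rfl
    · funext k
      exact congrArg y.1.1.2 (e.apply_symm_apply k)
  nat _ _ := rfl

end

/-- The hypothesis: `P` is true for the invertible matrices with prescribed zeros. -/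
def GBase (P : Sch R → Prop) : Prop :=
  ∀ (V : Type) [Fintype V] [DecidableEq V] (q : GPat V PEmpty), Holds P ((GT q).unit (detG q))

/-- **Sparse invertible matrices and sparse vectors with incidences.** -/
theorem holds_detG (hP : Mot sep P) (h0 : GBase P) (K : Type) [Finite K] :
    ∀ (V : Type) [Fintype V] [DecidableEq V] (q : GPat V K), Holds P ((GT q).unit (detG q)) := by
  classical
  induction K using Finite.induction_empty_option with
  | of_equiv e ih =>
    intro V _ _ q
    exact (ih V _).congr (gpK e q)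
  | h_empty => exact h0
  | @h_option K _ ih =>
    intro V _ _ q
    have h1 : ∀ J : V ⊕ Unit → Prop,
        Holds P ((RT q).jou (fun j : {j // J j} => cooR q j.1)) := by
      intro J
      exact (((ih (V ⊕ Unit) (q.ext J)).congr (extG q J)).congr (bjIso q J)).of_tor hP
        ((hasRep_RT q).jou _)
    have h2 := jou_rule hP (hasRep_RT q) (fun j : {j // q.off j} => cooR q j.1)
      (fun j : {j // q.off' j} => cooR q j.1) (cooR q (Sum.inr ())) (by
        ext x
        constructor
        · rintro ⟨⟨j, hj⟩, rfl⟩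
          rcases hj with h | rfl
          · exact Or.inr ⟨⟨j, h⟩, rfl⟩
          · exact Or.inl rfl
        · rintro (rfl | ⟨⟨j, hj⟩, rfl⟩)
          · exact ⟨⟨Sum.inr (), Or.inr rfl⟩, rfl⟩
          · exact ⟨⟨j, Or.inl hj⟩, rfl⟩) (h1 _) (h1 _)
    exact h2.congr (kerG q)

end Pool.Agent.Helper3.GM
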