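import Pool.Graph.R_seed8.Y116.UV.Defs

/-!
# Matrices with prescribed zeros: definitions
-/

set_option autoImplicit false

open CategoryTheory AlgebraicGeometry Pool.Agent.Y116.UV Matrix

namespace Pool.Agent.Helper3.GM

/-- The matrix with the entries `x` at the positions in `S` and the entries zero elsewhere. -/
def fill {n : ℕ} {C : Type} [CommRing C] (S : Finset (Fin n × Fin n)) (x : {p // p ∈ S} → C) :
    Matrix (Fin n) (Fin n) C :=
  of fun i j => if h : (i, j) ∈ S then x ⟨(i, j), h⟩ else 0

/-- The determinant of the generic matrix with zeros outside of `S`: the sum of the products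
`sgn(π) X_{1, π(1)} ⋯ X_{n, π(n)}` for the permutations `π` with `(i, π(i)) ∈ S` for all `i`. -/
noncomputable def detS (R : Type) [CommRing R] {n : ℕ} (S : Finset (Fin n × Fin n)) :
    MvPolynomial {p // p ∈ S} R :=
  (fill S MvPolynomial.X).det

/-- There are at most three positions of `S` in each row and in each column. -/
def Sparse {n : ℕ} (S : Finset (Fin n × Fin n)) : Prop :=
  (∀ i, (S.filter fun p => p.1 = i).card ≤ 3) ∧ ∀ j, (S.filter fun p => p.2 = j).card ≤ 3

/-- The invertible `n × n` matrices with zeros outside of `S`. -/
noncomputable def invS (R : Type) [CommRing R] {n : ℕ} (S : Finset (Fin n × Fin n)) : Sch R :=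
  aff R (Localization.Away (detS R S))

/-- The `n × n` matrices of determinant one with zeros outside of `S`. -/
noncomputable def oneS (R : Type) [CommRing R] {n : ℕ} (S : Finset (Fin n × Fin n)) : Sch R :=
  aff R (MvPolynomial {p // p ∈ S} R ⧸ Ideal.span {detS R S - 1})

/-- The `n × n` matrices of determinant zero with zeros outside of `S`. -/
noncomputable def zeroS (R : Type) [CommRing R] {n : ℕ} (S : Finset (Fin n × Fin n)) : Sch R :=
  aff R (MvPolynomial {p // p ∈ S} R ⧸ Ideal.span {detS R S})

/-- The invertible `n × n` matrices with zeros outside of `S` and invertible entries at all positions in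
`S`. -/
noncomputable def torS (R : Type) [CommRing R] {n : ℕ} (S : Finset (Fin n × Fin n)) : Sch R :=
  aff R (Localization.Away (detS R S * ∏ p, MvPolynomial.X p))

end Pool.Agent.Helper3.GM
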