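import Pool.Agent.Helper3.GM.Split

/-!
# Three entries in each row and column suffice
-/

set_option autoImplicit false

open CategoryTheory AlgebraicGeometry Pool.Agent.Y116.UV Pool.Agent.Q282.UK Matrix
  Pool.Agent.Helper3.GU

namespace Pool.Agent.Helper3.GM

section

variable {V : Type}

/-- the number of positions in a row -/
noncomputable def rd (S : V → V → Prop) (i : V) : ℕ := Nat.card {j // S i j}

variable [Finite V]

lemma card_le {α β : Type} [Finite β] (f : α → β) (hf : Function.Injective f) :
    Nat.card α ≤ Nat.card β := Nat.card_le_card_of_injective f hf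

lemma rd_mono {S T : V → V → Prop} {i : V} (h : ∀ j, T i j → S i j) : rd T i ≤ rd S i :=
  card_le (fun j : {j // T i j} => (⟨j.1, h j.1 j.2⟩ : {j // S i j})) fun a b h => by
    apply Subtype.ext
    exact congrArg (fun x : {j // S i j} => x.1) h

variable (S : V → V → Prop) (i : V) (A : V → Prop)

lemma rd_compl : Nat.card {j // S i j ∧ A j} + Nat.card {j // S i j ∧ ¬ A j} = rd S i := by
  rw [rd, ← Nat.card_sum]
  classical
  apply Nat.card_congr
  exact
  { toFun := Sum.elim (fun j => ⟨j.1, j.2.1⟩) fun j => ⟨j.1, j.2.1⟩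
    invFun := fun j => if h : A j.1 then Sum.inl ⟨j.1, j.2, h⟩ else Sum.inr ⟨j.1, j.2, h⟩
    left_inv := by
      rintro (⟨j, h⟩ | ⟨j, h⟩)
      · exact dif_pos h.2
      · exact dif_neg h.2
    right_inv := by
      rintro ⟨j, h⟩
      by_cases h1 : A j
      · change Sum.elim _ _ (if h : A j then _ else _) = _
        rw [dif_pos h1]
        rfl
      · change Sum.elim _ _ (if h : A j then _ else _) = _
        rw [dif_neg h1]
        rfl }

omit [Finite V] in
lemma rd_keep : rd (keep S i A) i = Nat.card {j // S i j ∧ A j} :=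
  Nat.card_congr
  { toFun := fun j => ⟨j.1, j.2.1, j.2.2 rfl⟩
    invFun := fun j => ⟨j.1, j.2.1, fun _ => j.2.2⟩
    left_inv := fun _ => rfl
    right_inv := fun _ => rfl }

lemma rd_split_ne (a : V) (h : a ≠ i) : rd (split S i A) (Sum.inl a) ≤ rd S a := by
  refine card_le (fun j : {j // split S i A (Sum.inl a) j} =>
    (match j with
      | ⟨Sum.inl b, hb⟩ => ⟨b, hb.1⟩
      | ⟨Sum.inr _, hb⟩ => absurd hb h : {j // S a j})) ?_
  rintro ⟨b | b, hb⟩ ⟨c | c, hc⟩ h1
  · have h2 : b = c := congrArg Subtype.val h1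
    subst h2
    rfl
  · exact absurd hc h
  · exact absurd hb h
  · exact absurd hb h

lemma card_option {α : Type} [Finite α] : Nat.card (Option α) = Nat.card α + 1 :=
  Finite.card_option

lemma rd_split_self : rd (split S i A) (Sum.inl i) ≤ Nat.card {j // S i j ∧ A j} + 1 := by
  rw [← card_option]
  refine card_le (fun j : {j // split S i A (Sum.inl i) j} =>
    (match j with
      | ⟨Sum.inl b, hb⟩ => some ⟨b, hb.1, hb.2 rfl⟩
      | ⟨Sum.inr _, _⟩ => none : Option {j // S i j ∧ A j})) ?_
  rintro ⟨b | b, hb⟩ ⟨c | c, hc⟩ h1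
  · have h2 : b = c := congrArg Subtype.val (Option.some_injective _ h1)
    subst h2
    rfl
  · exact absurd h1 (by simp)
  · exact absurd h1 (by simp)
  · rfl

lemma rd_split_inr : rd (split S i A) (Sum.inr ()) ≤ Nat.card {j // S i j ∧ ¬ A j} + 1 := by
  rw [← card_option]
  refine card_le (fun j : {j // split S i A (Sum.inr ()) j} =>
    (match j with
      | ⟨Sum.inl b, hb⟩ => some ⟨b, hb⟩
      | ⟨Sum.inr _, _⟩ => none : Option {j // S i j ∧ ¬ A j})) ?_
  rintro ⟨b | b, hb⟩ ⟨c | c, hc⟩ h1
  · have h2 : b = c := congrArg Subtype.val (Option.some_injective _ h1)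
    subst h2
    rfl
  · exact absurd h1 (by simp)
  · exact absurd h1 (by simp)
  · rfl

/-- the number of positions in a column -/
noncomputable abbrev cd (S : V → V → Prop) (j : V) : ℕ := rd (fun a b => S b a) j

lemma cd_keep (j : V) : cd (keep S i A) j ≤ cd S j := rd_mono fun _ h => h.1

lemma cd_split_inl (j : V) : cd (split S i A) (Sum.inl j) ≤ cd S j := by
  refine card_le (fun a : {a // split S i A a (Sum.inl j)} =>
    (match a with
      | ⟨Sum.inl b, hb⟩ => ⟨b, hb.1⟩
      | ⟨Sum.inr _, hb⟩ => ⟨i, hb.1⟩ : {a // S a j})) ?_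
  rintro ⟨b | b, hb⟩ ⟨c | c, hc⟩ h1
  · have h2 : b = c := congrArg Subtype.val h1
    subst h2
    rfl
  · have h2 : b = i := congrArg Subtype.val h1
    exact absurd (hb.2 h2) hc.2
  · have h2 : i = c := congrArg Subtype.val h1
    exact absurd (hc.2 h2.symm) hb.2
  · rfl

omit [Finite V] in
lemma cd_split_inr : cd (split S i A) (Sum.inr ()) ≤ 2 := by
  have h : Nat.card (Option Unit) = 2 := by simp
  rw [← h]
  refine card_le (fun a : {a // split S i A a (Sum.inr ())} =>
    (match a with
      | ⟨Sum.inl _, _⟩ => some ()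
      | ⟨Sum.inr _, _⟩ => none : Option Unit)) ?_
  rintro ⟨b | b, hb⟩ ⟨c | c, hc⟩ h1
  · have h2 : b = i := hb
    have h3 : c = i := hc
    subst h2
    subst h3
    rfl
  · exact absurd h1 (by simp)
  · exact absurd h1 (by simp)
  · rfl

/-- The excess of the rows. -/
noncomputable def exc [Fintype V] (S : V → V → Prop) : ℕ := ∑ i, (rd S i - 3)

omit [Finite V] in
lemma exc_lt [Fintype V] {S T : V → V → Prop} {i : V} (h : ∀ j, j ≠ i → rd T j ≤ rd S j)
    (hi : rd T i - 3 < rd S i - 3) : exc T < exc S := by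
  refine Finset.sum_lt_sum (fun j _ => ?_) ⟨i, Finset.mem_univ _, hi⟩
  by_cases hj : j = i
  · subst hj
    exact hi.le
  · exact Nat.sub_le_sub_right (h j hj) 3

end

/-- two positions of a row -/
lemma exists_two {V : Type} [Finite V] (S : V → V → Prop) (i : V) (h : 2 ≤ rd S i) :
    ∃ A : V → Prop, Nat.card {j // S i j ∧ A j} = 2 := by
  classical
  have := Fintype.ofFinite V
  have h1 : 2 ≤ (Finset.univ.filter (S i)).card := by
    rw [rd, Nat.card_eq_fintype_card, Fintype.card_subtype] at h
    exact h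
  obtain ⟨t, ht, h2⟩ := Finset.exists_subset_card_eq h1
  refine ⟨fun j => j ∈ t, ?_⟩
  rw [Nat.card_eq_fintype_card, Fintype.card_subtype, ← h2]
  congr 1
  ext j
  constructor
  · intro hj
    exact (Finset.mem_filter.1 hj).2.2
  · intro hj
    exact Finset.mem_filter.2 ⟨Finset.mem_univ _, (Finset.mem_filter.1 (ht hj)).2, hj⟩

variable {R : Type} [CommRing R] {sep : Prop} {P : Sch R → Prop}

/-- **Rows.** It suffices to consider patterns with at most three positions in each row. -/
theorem holds_rows (hP : Mot sep P) (b : ℕ) (hb : 2 ≤ b)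
    (H : ∀ (V : Type) [Fintype V] [DecidableEq V] (S : V → V → Prop), (∀ i, rd S i ≤ 3) →
      (∀ j, cd S j ≤ b) → Holds P (GL0 S)) (m : ℕ) :
    ∀ (V : Type) [Fintype V] [DecidableEq V] (S : V → V → Prop), exc S ≤ m →
      (∀ j, cd S j ≤ b) → Holds P (GL0 S) := by
  induction m with
  | zero =>
    intro V _ _ S h hc
    refine H V S (fun i => ?_) hc
    have h1 : ∑ i, (rd S i - 3) = 0 := Nat.le_zero.1 h
    have h2 := (Finset.sum_eq_zero_iff.1 h1) i (Finset.mem_univ _)
    omega
  | succ m ih =>
    intro V _ _ S h hc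
    by_cases h3 : ∀ i, rd S i ≤ 3
    · exact H V S h3 hc
    · push Not at h3
      obtain ⟨i, hi⟩ := h3
      obtain ⟨A, hA⟩ := exists_two S i (by omega)
      have h4 := rd_compl S i A
      rw [hA] at h4
      have h5 : rd (keep S i A) i = 2 := (rd_keep S i A).trans hA
      have h6 : rd (drop S i A) i = Nat.card {j // S i j ∧ ¬ A j} := rd_keep S i fun b => ¬ A b
      have e1 : exc (keep S i A) < exc S :=
        exc_lt (i := i) (fun j _ => rd_mono fun _ h => h.1) (by omega)
      have e2 : exc (drop S i A) < exc S :=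
        exc_lt (i := i) (fun j _ => rd_mono fun _ h => h.1) (by omega)
      have e3 : exc (split S i A) < exc S := by
        have h0 : ∑ a : Unit, (rd (split S i A) (Sum.inr a) - 3) =
            rd (split S i A) (Sum.inr ()) - 3 := Fintype.sum_unique _
        rw [exc, Fintype.sum_sum_type, h0, exc,
          ← Finset.add_sum_erase Finset.univ (fun i => rd S i - 3) (Finset.mem_univ i),
          ← Finset.add_sum_erase Finset.univ (fun a => rd (split S i A) (Sum.inl a) - 3)
            (Finset.mem_univ i)]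
        have h7 := rd_split_self S i A
        rw [hA] at h7
        have h8 := rd_split_inr S i A
        have h9 : ∑ a ∈ Finset.univ.erase i, (rd (split S i A) (Sum.inl a) - 3) ≤
            ∑ a ∈ Finset.univ.erase i, (rd S a - 3) := by
          apply Finset.sum_le_sum
          intro a ha
          exact Nat.sub_le_sub_right (rd_split_ne S i A a (Finset.ne_of_mem_erase ha)) 3
        change rd (split S i A) (Sum.inl i) - 3 +
          ∑ a ∈ Finset.univ.erase i, (rd (split S i A) (Sum.inl a) - 3) +
          (rd (split S i A) (Sum.inr ()) - 3) < _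
        omega
      refine holds_split S i A hP (ih _ _ (by omega) ?_) (ih _ _ (by omega) fun j =>
        (cd_keep S i A j).trans (hc j)) (ih _ _ (by omega) fun j =>
        (cd_keep S i (fun b => ¬ A b) j).trans (hc j))
      rintro (j | j)
      · exact (cd_split_inl S i A j).trans (hc j)
      · exact (cd_split_inr S i A).trans hb

/-- **Three entries in each row and column suffice.** -/
theorem holds_GL0 (hP : Mot sep P)
    (H : ∀ (V : Type) [Fintype V] [DecidableEq V] (S : V → V → Prop), (∀ i, rd S i ≤ 3) →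
      (∀ j, cd S j ≤ 3) → Holds P (GL0 S)) (V : Type) [Fintype V] [DecidableEq V]
    (S : V → V → Prop) : Holds P (GL0 S) := by
  have h1 : ∀ (V : Type) [Fintype V] [DecidableEq V] (S : V → V → Prop), (∀ j, cd S j ≤ 3) →
      Holds P (GL0 S) := fun V _ _ S hS => holds_rows hP 3 (by norm_num) H _ V S le_rfl hS
  have h2 : ∀ (V : Type) [Fintype V] [DecidableEq V] (S : V → V → Prop), (∀ j, rd S j ≤ 3) →
      Holds P (GL0 S) := fun V _ _ S hS => (h1 V (fun a b => S b a) hS).congr (trIso _)
  refine holds_rows hP (max 2 (∑ j, cd S j)) (le_max_left _ _) (fun V _ _ S hS _ => h2 V S hS) _ V S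
    le_rfl fun j => ?_
  exact (Finset.single_le_sum (f := fun j => cd S j) (fun _ _ => Nat.zero_le _)
    (Finset.mem_univ j)).trans (le_max_right _ _)

end Pool.Agent.Helper3.GM
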