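import Pool.Agent.Helper3.GU.Rules

/-!
# Families of schemes that decide all properties: finite lists
-/

set_option autoImplicit false

open CategoryTheory AlgebraicGeometry Pool.Agent.Y116.UV Pool.Agent.Helper3.GU

namespace Pool.Agent.Helper3.GM

variable {R : Type} [CommRing R] {sep : Prop} {I : Type} {good : I → Prop}

/-- The schemes that are decided by finitely many schemes of the family `F`. -/
def StarF (sep : Prop) (good : I → Prop) (F : I → Sch R) (X : Sch R) : Prop :=
  ∃ L : List I, (∀ i ∈ L, good i) ∧ ∀ P : Sch R → Prop, Mot sep P → (∀ i ∈ L, P (F i)) → P X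

variable {F : I → Sch R}

lemma StarF.map {X Y : Sch R} (h : StarF sep good F X)
    (hXY : ∀ P : Sch R → Prop, Mot sep P → P X → P Y) : StarF sep good F Y := by
  obtain ⟨L, hL, h⟩ := h
  exact ⟨L, hL, fun P hP hG => hXY P hP (h P hP hG)⟩

lemma StarF.map₂ {X Y Z : Sch R} (hX : StarF sep good F X) (hY : StarF sep good F Y)
    (h : ∀ P : Sch R → Prop, Mot sep P → P X → P Y → P Z) : StarF sep good F Z := by
  obtain ⟨L, hL, hX⟩ := hX
  obtain ⟨L', hL', hY⟩ := hY
  refine ⟨L ++ L', fun G hG => ?_, fun P hP hG => h P hP (hX P hP fun G h1 => hG G ?_)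
    (hY P hP fun G h1 => hG G ?_)⟩
  · rcases List.mem_append.1 hG with hG | hG
    · exact hL G hG
    · exact hL' G hG
  · exact List.mem_append.2 (Or.inl h1)
  · exact List.mem_append.2 (Or.inr h1)

theorem mot_starF : Mot sep (StarF sep good F) where
  iso hX e h := h.map fun _ hP => hP.iso hX e
  total i j hX ht hZ hU := hZ.map₂ hU fun _ hP => hP.total i j hX ht
  opened i j hX ht hZ hX' := hZ.map₂ hX' fun _ hP => hP.opened i j hX ht
  closed i j hX ht hX' hU := hX'.map₂ hU fun _ hP => hP.closed i j hX ht
  space n := ⟨[], fun G hG => absurd hG (by simp), fun _ hP _ => hP.space n⟩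
  jouanolou B _ _ _ m f U j hj hr h := h.map fun _ hP => hP.jouanolou B m f U j hj hr
  torus B _ _ _ h := h.map fun _ hP => hP.torus B
  line B _ _ _ h := h.map fun _ hP => hP.line B

lemma starF_self {i : I} (hi : good i) : StarF sep good F (F i) :=
  ⟨[i], fun j hj => by rw [List.mem_singleton.1 hj]; exact hi,
    fun _ _ h => h i (List.mem_singleton.2 rfl)⟩

/-- The families `F c` decide all properties with the closure properties. -/
def Universal {κ : Type} (sep : Prop) (good : I → Prop) (F : κ → I → Sch R) : Prop :=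
  ∀ (c : κ) (P : Sch R → Prop), Mot sep P → (∀ i, good i → P (F c i)) → ∀ X, FT sep X → P X

/-- **Finitely many members of each family suffice.** -/
theorem finite_listF {κ : Type} [Finite κ] {F : κ → I → Sch R} (hU : Universal sep good F)
    (X : Sch R) (hX : FT sep X) :
    ∃ L : List I, (∀ i ∈ L, good i) ∧
      ∀ P : Sch R → Prop, Mot sep P → ∀ c, (∀ i ∈ L, P (F c i)) → P X := by
  classical
  have := Fintype.ofFinite κ
  have h1 : ∀ c, StarF sep good (F c) X := fun c =>
    hU c _ mot_starF (fun i hi => starF_self (F := F c) hi) X hX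
  choose L hL h using h1
  refine ⟨(Finset.univ : Finset κ).toList.flatMap L, fun i hi => ?_, fun P hP c hi => ?_⟩
  · obtain ⟨c, -, hc⟩ := List.mem_flatMap.1 hi
    exact hL c i hc
  · exact h c P hP fun i h1 => hi i (List.mem_flatMap.2 ⟨c, by simp, h1⟩)

end Pool.Agent.Helper3.GM
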