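import Pool.Agent.Helper3.GM.Base
import Pool.Agent.Helper3.GU.Main

/-!
# Invertible matrices with prescribed zeros decide every motivic property
-/

set_option autoImplicit false

open CategoryTheory AlgebraicGeometry Pool.Agent.Y116.UV Pool.Agent.Q282.UK Matrix
  Pool.Agent.Helper3.GU

namespace Pool.Agent.Helper3.GM

/-- The pattern of a pair of sparse families of rows and columns. -/
def patG {P' K' F : Type} (S₁ : P' → F → Prop) (S₂ : K' → F → Prop)
    (E : (cf0 F).P ⊕ P' → (cf0 F).K ⊕ K' → Prop) : GPat (P' ⊕ F) K' where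
  adj a b := Sum.elim (fun p => Sum.elim (fun p' => p = p') (fun f => S₁ p f) b)
    (fun f => Sum.elim (fun _ => False) (fun f' => f = f') b) a
  S k := Sum.elim (fun _ => False) (S₂ k)
  E k := Sum.elim (fun p => E (Sum.inr p) (Sum.inr k)) fun _ => False

section

variable {P' K' F C : Type} [Fintype P'] [Fintype F] [DecidableEq P'] [DecidableEq F] [CommRing C]

/-- the block triangular matrix -/
def tri (v : P' → F → C) (d : P' ⊕ F → C) : Matrix (P' ⊕ F) (P' ⊕ F) C :=
  fromBlocks (diagonal fun p => d (Sum.inl p)) (of v) 0 (diagonal fun f => d (Sum.inr f))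

lemma det_tri (v : P' → F → C) (d : P' ⊕ F → C) : (tri v d).det = ∏ a, d a := by
  rw [tri, det_fromBlocks_zero₂₁, det_diagonal, det_diagonal, Fintype.prod_sum_type]

omit [Fintype P'] [Fintype F] in
lemma tri_self (v : P' → F → C) (d : P' ⊕ F → C) (a : P' ⊕ F) : tri v d a a = d a := by
  rcases a with a | a
  · exact diagonal_apply_eq (fun p => d (Sum.inl p)) a
  · exact diagonal_apply_eq (fun p => d (Sum.inr p)) a

omit [Fintype P'] [Fintype F] in
lemma tri_ne (v : P' → F → C) (d : P' ⊕ F → C) :
    (∀ a b, a ≠ b → tri v d (Sum.inl a) (Sum.inl b) = 0) ∧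
      (∀ a b, a ≠ b → tri v d (Sum.inr a) (Sum.inr b) = 0) :=
  ⟨fun _ _ h => diagonal_apply_ne (fun p => d (Sum.inl p)) h,
    fun _ _ h => diagonal_apply_ne (fun p => d (Sum.inr p)) h⟩

lemma tri_mulVec (v : P' → F → C) (d : P' ⊕ F → C) (w : F → C) (p : P') :
    (tri v d *ᵥ Sum.elim (fun _ => 0) w) (Sum.inl p) = v p ⬝ᵥ w := by
  rw [mulVec, dotProduct, Fintype.sum_sum_type, dotProduct]
  simp [tri]

lemma isUnit_prod {ι : Type} (s : Finset ι) (f : ι → C) : IsUnit (∏ i ∈ s, f i) ↔
    ∀ i ∈ s, IsUnit (f i) := by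
  classical
  induction s using Finset.induction_on with
  | empty => simp
  | insert a s ha ih =>
    rw [Finset.prod_insert ha, IsUnit.mul_iff, ih]
    simp

end

/-- the bijection for the empty configuration -/
noncomputable def isoG {P' K' F : Type} [Fintype P'] [Fintype F] [DecidableEq P'] [DecidableEq F]
    (S₁ : P' → F → Prop) (S₂ : K' → F → Prop)
    (E : (cf0 F).P ⊕ P' → (cf0 F).K ⊕ K' → Prop) :
    PIso ((GT (patG S₁ S₂ E)).unit (detG _)) ((EX (cf0 F) S₁ S₂ E).tor (P' ⊕ F)) := by
  have key : ∀ {C : Type} [CommRing C] (x : (GT (patG S₁ S₂ E)).pts C),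
      x.1.1 = tri (fun p f => x.1.1 (Sum.inl p) (Sum.inr f)) fun a => x.1.1 a a := by
    intro C _ x
    ext a b
    rcases a with a | a <;> rcases b with b | b
    · by_cases h : a = b
      · subst h
        exact (tri_self (fun p f => x.1.1 (Sum.inl p) (Sum.inr f)) (fun a => x.1.1 a a)
          (Sum.inl a)).symm
      · rw [x.2.zero (Sum.inl a) (Sum.inl b) h]
        exact ((tri_ne _ _).1 a b h).symm
    · rfl
    · exact x.2.zero (Sum.inr a) (Sum.inl b) (fun h => h)
    · by_cases h : a = b
      · subst h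
        exact (tri_self (fun p f => x.1.1 (Sum.inl p) (Sum.inr f)) (fun a => x.1.1 a a)
          (Sum.inr a)).symm
      · rw [x.2.zero (Sum.inr a) (Sum.inr b) h]
        exact ((tri_ne _ _).2 a b h).symm
  have hu : ∀ {C : Type} [CommRing C] (x : ((GT (patG S₁ S₂ E)).unit (detG _)).pts C) (a : P' ⊕ F),
      IsUnit (x.1.1.1 a a) := by
    intro C _ x a
    have h : IsUnit (x.1.1.1).det := x.2
    rw [key x.1, det_tri, isUnit_prod] at h
    exact h a (Finset.mem_univ _)
  exact {
    fwd := fun x => (⟨((), (fun p f => x.1.1.1 (Sum.inl p) (Sum.inr f)),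
        fun k f => x.1.1.2 k (Sum.inr f)), fun p f h => x.1.2.zero (Sum.inl p) (Sum.inr f) h,
        fun k f h => x.1.2.supp k (Sum.inr f) h, by
          rintro (p | p) (k | k) h
          · exact p.elim
          · exact p.elim
          · exact k.elim
          · have h1 := x.1.2.inc k (Sum.inl p) h
            rw [mulVec, dotProduct, Fintype.sum_sum_type] at h1
            have h2 : ∑ p', x.1.1.1 (Sum.inl p) (Sum.inl p') * x.1.1.2 k (Sum.inl p') = 0 := by
              apply Finset.sum_eq_zero
              intro p' _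
              rw [x.1.2.supp k (Sum.inl p') (fun h => h), mul_zero]
            rw [h2, zero_add] at h1
            exact h1⟩, fun a => (hu x a).unit)
    bwd := fun {C} _ y => ⟨⟨(tri y.1.1.2.1 fun a => ((y.2 a : Cˣ) : C),
        fun k => Sum.elim (fun _ => 0) (y.1.1.2.2 k)), by
          rintro (a | a) (b | b) h
          · exact (tri_ne y.1.1.2.1 fun a => ((y.2 a : Cˣ) : C)).1 a b h
          · exact y.1.2.s1 a b h
          · rfl
          · exact (tri_ne y.1.1.2.1 fun a => ((y.2 a : Cˣ) : C)).2 a b h, by
          rintro k (a | a) h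
          · rfl
          · exact y.1.2.s2 k a h, by
          rintro k (a | a) h
          · rw [tri_mulVec]
            exact y.1.2.inc (Sum.inr a) (Sum.inr k) h
          · exact h.elim⟩, by
          change IsUnit (tri y.1.1.2.1 fun a => ((y.2 a : Cˣ) : C)).det
          rw [det_tri, isUnit_prod]
          exact fun a _ => Units.isUnit _⟩
    left := fun x => by
      apply Subtype.ext
      apply Subtype.ext
      apply Prod.ext
      · exact (key x.1).symm
      · funext k a
        rcases a with a | a
        · exact (x.1.2.supp k (Sum.inl a) (fun h => h)).symm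
        · rfl
    right := fun {C} _ y => by
      apply Prod.ext
      · rfl
      · funext a
        apply Units.ext
        exact tri_self y.1.1.2.1 (fun a => ((y.2 a : Cˣ) : C)) a
    nat := fun f x => by
      apply Prod.ext
      · rfl
      · funext a
        exact Units.ext rfl }

variable {R : Type} [CommRing R] {sep : Prop} {P : Sch R → Prop}

theorem full_cf0G (hP : Mot sep P) (h0 : GBase P) (F : Type) [Fintype F] : Full P (cf0 F) := by
  classical
  intro P' K' _ _ S₁ S₂ E
  have := Fintype.ofFinite P'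
  exact ((holds_detG hP h0 K' (P' ⊕ F) (patG S₁ S₂ E)).congr (isoG S₁ S₂ E)).of_tor hP
    (hasRep_EX (c := cf0 F) hasRep_PT _ _ _)

theorem full_cf1G (hP : Mot sep P) (h0 : GBase P) (F : Type) [Fintype F] : Full P (cf1 F) := by
  classical
  intro P' K' _ _ S₁ S₂ E
  have h1 := full_unit hP (full_cf0G hP h0 F) S₂ (gE E) (gU P' F) (Sum.elim (fun _ _ => True) S₁)
  exact (h1.congr (gIso S₁ S₂ E)).of_tor hP (hasRep_EX (c := cf1 F) hasRep_PT _ _ _)

theorem holds_BFG {I J L : Type} [Fintype I] [Fintype J] [Fintype L] [DecidableEq I]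
    [DecidableEq J] [DecidableEq L] (T : I → J → L → Prop) (hP : Mot sep P) (h0 : GBase P)
    [∀ i j l, Decidable (T i j l)] : Holds P (BF T) := by
  have h1 := full_cf1G hP h0 (Fr I J L)
  have h2 : Full P (c2 I J L) := full_addCol hP h1 hasRep_PT (a2 I J L)
  have h3 := full_add hP h2 hasRep_PT (a3 I J L)
  have hJ : HasRep R (PT.aff J) := hasRep_PT.aff J
  have h4 := full_add hP h3 hJ (a4 I J L)
  have h5 : Full P (c5 I J L) := full_addCol hP h4 hJ (a5 I J L)
  have h6 := full_add hP h5 hJ (a6 I J L)
  have h7 : Full P (c7 T) := full_addCol hP h6 hJ (a7 T)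
  have h8 := full_add hP h7 (hJ.aff I) (a8 T)
  exact (h8 PEmpty PEmpty (fun _ _ => False) (fun _ _ => False) (lastE T)).congr (lastIso T)

/-- **Invertible matrices with prescribed zeros decide every motivic property.** -/
theorem universal_of_base (hP : Mot sep P) (hR : Presents ({0, 1} : Set R)) (h : GBase P)
    (X : Sch R) (hX : FT sep X) : P X := by
  classical
  have hC : Clo sep P := ⟨hP.iso, hP.total, hP.opened, hP.torus⟩
  refine clo_universal hC (S := {0, 1}) (by simp) (by simp) ?_ hR X hX
  intro a b c T hT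
  exact bil_of_holds hP T hT (holds_BFG _ hP h)

end Pool.Agent.Helper3.GM
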