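import Pool.Agent.Helper3.GM.Deg
import Pool.Agent.Helper3.GM.Defs
import Pool.Agent.Helper3.GM.Fam

/-!
# Matrices with at most three free entries in each row and column decide every motivic property
-/

set_option autoImplicit false

open CategoryTheory AlgebraicGeometry Pool.Agent.Y116.UV Pool.Agent.Q282.UK Matrix
  Pool.Agent.Helper3.GU

namespace Pool.Agent.Helper3.GM

section

variable {n : ℕ} {C D : Type} [CommRing C] [CommRing D]

lemma fill_map (f : C →+* D) (S : Finset (Fin n × Fin n)) (x : {p // p ∈ S} → C) :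
    fill S (fun p => f (x p)) = (fill S x).map f := by
  ext i j
  change (if h : (i, j) ∈ S then f (x ⟨(i, j), h⟩) else 0) =
    f (if h : (i, j) ∈ S then x ⟨(i, j), h⟩ else 0)
  split_ifs
  · rfl
  · rw [map_zero]

lemma fill_mem (S : Finset (Fin n × Fin n)) (x : {p // p ∈ S} → C) (p : {p // p ∈ S}) :
    fill S x p.1.1 p.1.2 = x p := dif_pos p.2

lemma fill_not (S : Finset (Fin n × Fin n)) (x : {p // p ∈ S} → C) (i j : Fin n)
    (h : (i, j) ∉ S) : fill S x i j = 0 := dif_neg h

lemma fill_self (S : Finset (Fin n × Fin n)) (N : Matrix (Fin n) (Fin n) C)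
    (h : ∀ i j, (i, j) ∉ S → N i j = 0) : fill S (fun p => N p.1.1 p.1.2) = N := by
  ext i j
  by_cases h1 : (i, j) ∈ S
  · exact fill_mem S _ ⟨(i, j), h1⟩
  · rw [fill_not S _ i j h1, h i j h1]

end

section

variable {n : ℕ}

/-- the relation of a set of positions -/
abbrev rel (S : Finset (Fin n × Fin n)) : Fin n → Fin n → Prop := fun i j => (i, j) ∈ S

/-- the determinant -/
noncomputable def dF (S : Finset (Fin n × Fin n)) : NF (PT.aff {p // p ∈ S}) where
  fn p := (fill S p.2).det
  nat f p := by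
    change (fill S (fun e => f (p.2 e))).det = _
    rw [fill_map, GU.det_map]

/-- the invertible matrices with prescribed zeros -/
noncomputable def isoD (S : Finset (Fin n × Fin n)) :
    PIso ((PT.aff {p // p ∈ S}).unit (dF S)) (GL0 (rel S)) where
  fwd x := ⟨fill S x.1.2, fun i j h => fill_not S _ i j h, x.2⟩
  bwd N := ⟨((), fun p => N.1 p.1.1 p.1.2), by
    change IsUnit (fill S fun p => N.1 p.1.1 p.1.2).det
    rw [fill_self S N.1 N.2.1]
    exact N.2.2⟩
  left x := by
    apply Subtype.ext
    apply Prod.ext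
    · rfl
    · funext p
      exact fill_mem S _ p
  right N := Subtype.ext (fill_self S N.1 N.2.1)
  nat f x := Subtype.ext (fill_map f S x.1.2)

variable {R : Type} [CommRing R] {sep : Prop} {P : Sch R → Prop}

lemma ft_pos (S : Finset (Fin n × Fin n)) :
    Algebra.FiniteType R (MvPolynomial {p // p ∈ S} R) := inferInstance

lemma holds_inv (S : Finset (Fin n × Fin n)) (h : P (invS R S)) : Holds P (GL0 (rel S)) := by
  have h1 := (rep_PT (R := R)).aff {p // p ∈ S}
  exact Holds.congr ⟨_, inferInstance, inferInstance, ft_loc _ _, _, h1.unit (dF S) rfl, h⟩ (isoD S)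

/-- renaming -/
def reIso {V V' : Type} [Fintype V] [DecidableEq V] [Fintype V'] [DecidableEq V'] (e : V ≃ V')
    (S : V' → V' → Prop) (S' : V → V → Prop) (h : ∀ a b, S' a b ↔ S (e a) (e b)) :
    PIso (GL0 S) (GL0 S') where
  fwd N := ⟨N.1.submatrix e e, fun a b h1 => N.2.1 _ _ fun h2 => h1 ((h a b).2 h2), by
    rw [det_submatrix_equiv_self]
    exact N.2.2⟩
  bwd N := ⟨N.1.submatrix e.symm e.symm, fun a b h1 => N.2.1 _ _ fun h2 => h1 (by
      have h3 := (h _ _).1 h2
      rwa [e.apply_symm_apply, e.apply_symm_apply] at h3), by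
    rw [det_submatrix_equiv_self]
    exact N.2.2⟩
  left N := by
    apply Subtype.ext
    ext a b
    exact congrArg₂ N.1 (e.apply_symm_apply a) (e.apply_symm_apply b)
  right N := by
    apply Subtype.ext
    ext a b
    exact congrArg₂ N.1 (e.symm_apply_apply a) (e.symm_apply_apply b)
  nat _ _ := rfl

lemma card_fin {α : Type} [DecidableEq α] (s : Finset α) : s.card = Nat.card {a // a ∈ s} := by
  rw [Nat.card_eq_fintype_card, Fintype.card_coe]

/-- the hypothesis for the functors -/
lemma all_of_sparse (hP : Mot sep P)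
    (h : ∀ (n : ℕ) (S : Finset (Fin n × Fin n)), Sparse S → Holds P (GL0 (rel S)))
    (V : Type) [Fintype V] [DecidableEq V] (S : V → V → Prop) : Holds P (GL0 S) := by
  classical
  refine holds_GL0 hP ?_ V S
  intro V _ _ S hr hc
  let e := Fintype.equivFin V
  let T : Finset (Fin (Fintype.card V) × Fin (Fintype.card V)) :=
    Finset.univ.filter fun p => S (e.symm p.1) (e.symm p.2)
  have hT : ∀ p, p ∈ T ↔ S (e.symm p.1) (e.symm p.2) := fun p => by simp [T]
  have hs : Sparse T := by
    constructor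
    · intro i
      refine le_trans ?_ (hr (e.symm i))
      rw [card_fin]
      refine card_le (fun p => (⟨e.symm p.1.2, by
        have h1 := Finset.mem_filter.1 p.2
        have h2 := (hT _).1 h1.1
        rwa [h1.2] at h2⟩ : {j // S (e.symm i) j})) ?_
      rintro ⟨⟨a, b⟩, hp⟩ ⟨⟨a', b'⟩, hp'⟩ h1
      have h2 : e.symm b = e.symm b' := congrArg Subtype.val h1
      have h3 : a = i := (Finset.mem_filter.1 hp).2
      have h4 : a' = i := (Finset.mem_filter.1 hp').2
      have h5 : b = b' := e.symm.injective h2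
      subst h3 h4 h5
      rfl
    · intro i
      refine le_trans ?_ (hc (e.symm i))
      rw [card_fin]
      refine card_le (fun p => (⟨e.symm p.1.1, by
        have h1 := Finset.mem_filter.1 p.2
        have h2 := (hT _).1 h1.1
        rwa [h1.2] at h2⟩ : {j // S j (e.symm i)})) ?_
      rintro ⟨⟨a, b⟩, hp⟩ ⟨⟨a', b'⟩, hp'⟩ h1
      have h2 : e.symm a = e.symm a' := congrArg Subtype.val h1
      have h3 : b = i := (Finset.mem_filter.1 hp).2
      have h4 : b' = i := (Finset.mem_filter.1 hp').2
      have h5 : a = a' := e.symm.injective h2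
      subst h3 h4 h5
      rfl
  exact (h _ T hs).congr (reIso e (rel T) S fun a b => by
    change _ ↔ (e a, e b) ∈ T
    rw [hT, e.symm_apply_apply, e.symm_apply_apply])

/-- universality -/
theorem universal_GL (hP : Mot sep P) (hR : Presents ({0, 1} : Set R))
    (h : ∀ (n : ℕ) (S : Finset (Fin n × Fin n)), Sparse S → Holds P (GL0 (rel S))) (X : Sch R)
    (hX : FT sep X) : P X :=
  universal_of_base hP hR (base_of_GL0 fun V _ _ S => all_of_sparse hP h V S) X hX

/-! ### The other kinds -/

lemma holds_point (hP : Mot sep P) : Holds P PT :=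
  ⟨R, inferInstance, inferInstance, inferInstance, (), rep_PT, by
    have h := hP.space 0
    exact iso_alg hP.toUni (MvPolynomial.isEmptyAlgEquiv R (Fin 0)) h⟩

lemma holds_space (hP : Mot sep P) (κ : Type) [Finite κ] : Holds P (PT.aff κ) :=
  (holds_point hP).aff hP κ

lemma holds_zero (hP : Mot sep P) (S : Finset (Fin n × Fin n)) (h : P (zeroS R S)) :
    Holds P (GL0 (rel S)) := by
  have h1 := (rep_PT (R := R)).aff {p // p ∈ S}
  have h2 : Holds P ((PT.aff {p // p ∈ S}).zero (dF S)) :=
    ⟨_, inferInstance, inferInstance, inferInstance, _, h1.zero (dF S) rfl, h⟩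
  exact ((holds_space hP _).opened hP (dF S) h2).congr (isoD S)

/-- the determinant minus one -/
noncomputable def d1 (S : Finset (Fin n × Fin n)) : NF (PT.aff {p // p ∈ S}) where
  fn p := (fill S p.2).det - 1
  nat f p := by
    change (fill S (fun e => f (p.2 e))).det - 1 = _
    rw [fill_map, GU.det_map, map_sub, map_one]

/-- the matrices of determinant one -/
def SL0 {V : Type} [Fintype V] [DecidableEq V] (S : V → V → Prop) : PF where
  pts C _ := {N : Matrix V V C // (∀ a b, ¬ S a b → N a b = 0) ∧ N.det = 1}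
  map f N := ⟨N.1.map f, fun a b h => by
    change f _ = 0
    rw [N.2.1 a b h, map_zero], by
    rw [GU.det_map, N.2.2, map_one]⟩
  map_id _ := rfl
  map_comp _ _ _ := rfl

/-- the matrices of determinant one -/
noncomputable def isoD1 (S : Finset (Fin n × Fin n)) :
    PIso ((PT.aff {p // p ∈ S}).zero (d1 S)) (SL0 (rel S)) where
  fwd x := ⟨fill S x.1.2, fun i j h => fill_not S _ i j h, sub_eq_zero.1 x.2⟩
  bwd N := ⟨((), fun p => N.1 p.1.1 p.1.2), by
    change (fill S fun p => N.1 p.1.1 p.1.2).det - 1 = 0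
    rw [fill_self S N.1 N.2.1, N.2.2, sub_self]⟩
  left x := by
    apply Subtype.ext
    apply Prod.ext
    · rfl
    · funext p
      exact fill_mem S _ p
  right N := Subtype.ext (fill_self S N.1 N.2.1)
  nat f x := Subtype.ext (fill_map f S x.1.2)

lemma inv_of_eq {C D : Type} [CommRing C] [CommRing D] (f : C →+* D) (u : Dˣ) (v : Cˣ)
    (h : (u : D) = f v) : ((u⁻¹ : Dˣ) : D) = f ((v⁻¹ : Cˣ) : C) := by
  have h1 : u = Units.map (f : C →* D) v := Units.ext h
  rw [h1]
  rfl

section

variable {V : Type} [Fintype V] [DecidableEq V] (S : V → V → Prop) (i : V)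

/-- scaling a row -/
def scl {C : Type} [CommRing C] (N : Matrix V V C) (t : C) : Matrix V V C :=
  updateRow N i (t • N i)

lemma det_scl {C : Type} [CommRing C] (N : Matrix V V C) (t : C) : (scl i N t).det = t * N.det := by
  rw [scl, det_updateRow_smul, updateRow_eq_self]

omit [Fintype V] in
lemma scl_scl {C : Type} [CommRing C] (N : Matrix V V C) (t s : C) (h : s * t = 1) :
    scl i (scl i N t) s = N := by
  have h1 : s • scl i N t i = N i := by
    rw [scl, updateRow_self, smul_smul, h, one_smul]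
  rw [scl, h1, scl, updateRow_idem, updateRow_eq_self]

omit [Fintype V] in
lemma scl_zero {C : Type} [CommRing C] (N : Matrix V V C) (t : C) (a b : V) (h : N a b = 0) :
    scl i N t a b = 0 := by
  by_cases ha : a = i
  · subst ha
    rw [scl, updateRow_self]
    change t * _ = 0
    rw [h, mul_zero]
  · rw [scl, updateRow_ne ha, h]

/-- invertible matrices and matrices of determinant one -/
noncomputable def slIso : PIso (GL0 S) ((SL0 S).tor PUnit) where
  fwd {C} _ N := (⟨scl i N.1 ((N.2.2.unit⁻¹ : Cˣ) : C), fun a b h => scl_zero i _ _ a b (N.2.1 a b h), by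
    rw [det_scl]
    exact N.2.2.val_inv_mul⟩, fun _ => N.2.2.unit)
  bwd {C} _ x := ⟨scl i x.1.1 ((x.2 ⟨⟩ : Cˣ) : C), fun a b h => scl_zero i _ _ a b (x.1.2.1 a b h), by
    rw [det_scl, x.1.2.2, mul_one]
    exact Units.isUnit _⟩
  left {C} _ N := Subtype.ext (scl_scl i N.1 _ _ N.2.2.unit.mul_inv)
  right {C} _ x := by
    have h1 : (scl i x.1.1 ((x.2 ⟨⟩ : Cˣ) : C)).det = ((x.2 ⟨⟩ : Cˣ) : C) := by
      rw [det_scl, x.1.2.2, mul_one]
    have h2 : ∀ h : IsUnit (scl i x.1.1 ((x.2 ⟨⟩ : Cˣ) : C)).det, h.unit = x.2 ⟨⟩ := fun h =>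
      Units.ext h1
    apply Prod.ext
    · apply Subtype.ext
      change scl i (scl i x.1.1 ((x.2 ⟨⟩ : Cˣ) : C)) _ = x.1.1
      rw [h2]
      exact scl_scl i _ _ _ (Units.inv_mul _)
    · funext _
      exact h2 _
  nat {C D} _ _ f N := by
    have h1 : ((((GL0 S).map f N).2.2.unit⁻¹ : Dˣ) : D) = f ((N.2.2.unit⁻¹ : Cˣ) : C) :=
      inv_of_eq f _ _ (GU.det_map f N.1)
    apply Prod.ext
    · apply Subtype.ext
      change scl i (N.1.map f) ((((GL0 S).map f N).2.2.unit⁻¹ : Dˣ) : D) =
        (scl i N.1 ((N.2.2.unit⁻¹ : Cˣ) : C)).map f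
      rw [h1, scl, scl, map_updateRow]
      congr 1
      funext b
      exact (map_mul f _ _).symm
    · funext _
      exact Units.ext (GU.det_map f N.1)

end

lemma holds_one (hP : Mot sep P) (S : Finset (Fin n × Fin n)) (h : P (oneS R S)) :
    Holds P (GL0 (rel S)) := by
  have h1 := (rep_PT (R := R)).aff {p // p ∈ S}
  have h2 : Holds P ((PT.aff {p // p ∈ S}).zero (d1 S)) :=
    ⟨_, inferInstance, inferInstance, inferInstance, _, h1.zero (d1 S) rfl, h⟩
  rcases n with _ | n
  · refine (holds_point hP).congr ⟨fun _ => ⟨1, fun i => i.elim0, by simp⟩, fun _ => (), fun _ => rfl,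
      fun N => ?_, fun f _ => ?_⟩
    · apply Subtype.ext
      ext i
      exact i.elim0
    · apply Subtype.ext
      ext i
      exact i.elim0
  · exact ((h2.congr (isoD1 S)).tor hP PUnit).congr (slIso (rel S) 0).symm

/-! ### Invertible entries -/

/-- the product of the entries at the positions in `U` -/
def pU (S U : Finset (Fin n × Fin n)) : NF (GL0 (rel S)) where
  fn N := ∏ p ∈ U, N.1 p.1 p.2
  nat f N := (map_prod f _ _).symm

/-- the entries at the positions in `U` are invertible -/
def GLU (S U : Finset (Fin n × Fin n)) : PF := (GL0 (rel S)).unit (pU S U)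

/-- an entry -/
def eU (S U : Finset (Fin n × Fin n)) (p : Fin n × Fin n) : NF (GLU S U) :=
  ⟨fun N => N.1.1 p.1 p.2, fun _ _ => rfl⟩

/-- the entry is zero -/
def eraseIso (S U : Finset (Fin n × Fin n)) (p : Fin n × Fin n) :
    PIso ((GLU S U).zero (eU S U p)) (GLU (S.erase p) U) where
  fwd x := ⟨⟨x.1.1.1, fun a b h => by
    by_cases h1 : (a, b) = p
    · subst h1
      exact x.2
    · exact x.1.1.2.1 a b fun h2 => h (Finset.mem_erase.2 ⟨h1, h2⟩), x.1.1.2.2⟩, x.1.2⟩
  bwd y := ⟨⟨⟨y.1.1, fun a b h => y.1.2.1 a b fun h1 => h (Finset.mem_of_mem_erase h1), y.1.2.2⟩,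
    y.2⟩, y.1.2.1 p.1 p.2 fun h => absurd h (Finset.notMem_erase p S)⟩
  left _ := rfl
  right _ := rfl
  nat _ _ := rfl

/-- the entry is invertible -/
def insertIso (S U : Finset (Fin n × Fin n)) (p : Fin n × Fin n) (hp : p ∉ U) :
    PIso ((GLU S U).unit (eU S U p)) (GLU S (insert p U)) where
  fwd x := ⟨x.1.1, by
    change IsUnit (∏ p ∈ insert p U, x.1.1.1 p.1 p.2)
    rw [Finset.prod_insert hp]
    exact x.2.mul x.1.2⟩
  bwd y := ⟨⟨y.1, by
    have h : IsUnit (∏ p ∈ insert p U, y.1.1 p.1 p.2) := y.2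
    rw [Finset.prod_insert hp] at h
    exact (IsUnit.mul_iff.1 h).2⟩, by
    have h : IsUnit (∏ p ∈ insert p U, y.1.1 p.1 p.2) := y.2
    rw [Finset.prod_insert hp] at h
    exact (IsUnit.mul_iff.1 h).1⟩
  left _ := rfl
  right _ := rfl
  nat _ _ := rfl

lemma sparse_erase {S : Finset (Fin n × Fin n)} (h : Sparse S) (p : Fin n × Fin n) :
    Sparse (S.erase p) :=
  ⟨fun i => (Finset.card_le_card (Finset.filter_subset_filter _ (Finset.erase_subset p S))).trans
    (h.1 i), fun j => (Finset.card_le_card (Finset.filter_subset_filter _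
      (Finset.erase_subset p S))).trans (h.2 j)⟩

lemma holds_GLU (hP : Mot sep P)
    (h : ∀ S : Finset (Fin n × Fin n), Sparse S → Holds P (GLU S S)) (m : ℕ) :
    ∀ S U : Finset (Fin n × Fin n), Sparse S → U ⊆ S → (S \ U).card ≤ m → Holds P (GLU S U) := by
  induction m with
  | zero =>
    intro S U hS hU hc
    have h1 : S \ U = ∅ := Finset.card_eq_zero.1 (Nat.le_zero.1 hc)
    have h2 : U = S := Finset.Subset.antisymm hU (Finset.sdiff_eq_empty_iff_subset.1 h1)
    subst h2
    exact h U hS
  | succ m ih =>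
    intro S U hS hU hc
    by_cases h1 : S \ U = ∅
    · have h2 : U = S := Finset.Subset.antisymm hU (Finset.sdiff_eq_empty_iff_subset.1 h1)
      subst h2
      exact h U hS
    · obtain ⟨p, hp⟩ := Finset.nonempty_iff_ne_empty.2 h1
      have hpS := (Finset.mem_sdiff.1 hp).1
      have hpU := (Finset.mem_sdiff.1 hp).2
      have c1 : ((S.erase p) \ U).card ≤ m := by
        have h3 : (S.erase p) \ U = (S \ U).erase p := by
          ext x
          simp only [Finset.mem_sdiff, Finset.mem_erase]
          tauto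
        rw [h3, Finset.card_erase_of_mem hp]
        omega
      have c2 : (S \ insert p U).card ≤ m := by
        have h3 : S \ insert p U = (S \ U).erase p := by
          ext x
          simp only [Finset.mem_sdiff, Finset.mem_erase, Finset.mem_insert]
          tauto
        rw [h3, Finset.card_erase_of_mem hp]
        omega
      have hF : HasRep R (GLU S U) := (hasRep_GL0 (rel S)).unit _
      refine Holds.total hP hF (eU S U p) ?_ ?_
      · refine (ih (S.erase p) U (sparse_erase hS p) (fun x hx => ?_) c1).congr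
          (eraseIso S U p).symm
        exact Finset.mem_erase.2 ⟨fun h3 => hpU (h3 ▸ hx), hU hx⟩
      · exact (ih S (insert p U) hS (Finset.insert_subset hpS hU) c2).congr
          (insertIso S U p hpU).symm

/-- the determinant times the product of the variables -/
noncomputable def dU (S : Finset (Fin n × Fin n)) : NF (PT.aff {p // p ∈ S}) where
  fn p := (fill S p.2).det * ∏ e, p.2 e
  nat f p := by
    change (fill S (fun e => f (p.2 e))).det * ∏ e, f (p.2 e) = _
    rw [fill_map, GU.det_map, map_mul, map_prod]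

lemma prod_pos {C : Type} [CommRing C] (S : Finset (Fin n × Fin n)) (x : {p // p ∈ S} → C) :
    ∏ p ∈ S, fill S x p.1 p.2 = ∏ e, x e := by
  rw [← Finset.prod_coe_sort]
  apply Finset.prod_congr rfl
  intro p _
  exact fill_mem S x p

/-- the torus -/
noncomputable def isoU (S : Finset (Fin n × Fin n)) :
    PIso ((PT.aff {p // p ∈ S}).unit (dU S)) (GLU S S) where
  fwd x := ⟨⟨fill S x.1.2, fun i j h => fill_not S _ i j h, (IsUnit.mul_iff.1 x.2).1⟩, by
    change IsUnit (∏ p ∈ S, fill S x.1.2 p.1 p.2)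
    rw [prod_pos]
    exact (IsUnit.mul_iff.1 x.2).2⟩
  bwd N := ⟨((), fun p => N.1.1 p.1.1 p.1.2), by
    change IsUnit ((fill S fun p => N.1.1 p.1.1 p.1.2).det *
      ∏ p : {p // p ∈ S}, N.1.1 p.1.1 p.1.2)
    rw [fill_self S N.1.1 N.1.2.1]
    refine N.1.2.2.mul ?_
    have h : IsUnit (∏ p ∈ S, N.1.1 p.1 p.2) := N.2
    rw [← Finset.prod_coe_sort] at h
    exact h⟩
  left x := by
    apply Subtype.ext
    apply Prod.ext
    · rfl
    · funext p
      exact fill_mem S _ p
  right N := Subtype.ext (Subtype.ext (fill_self S N.1.1 N.1.2.1))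
  nat f x := Subtype.ext (Subtype.ext (fill_map f S x.1.2))

/-- no condition -/
def emptyIso (S : Finset (Fin n × Fin n)) : PIso (GLU S ∅) (GL0 (rel S)) where
  fwd x := x.1
  bwd y := ⟨y, by
    change IsUnit (∏ p ∈ (∅ : Finset (Fin n × Fin n)), y.1 p.1 p.2)
    rw [Finset.prod_empty]
    exact isUnit_one⟩
  left _ := rfl
  right _ := rfl
  nat _ _ := rfl

lemma holds_tor (hP : Mot sep P)
    (h : ∀ (n : ℕ) (S : Finset (Fin n × Fin n)), Sparse S → P (torS R S)) (n : ℕ)
    (S : Finset (Fin n × Fin n)) (hS : Sparse S) : Holds P (GL0 (rel S)) := by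
  have h0 : ∀ S : Finset (Fin n × Fin n), Sparse S → Holds P (GLU S S) := by
    intro S hS
    have h1 := (rep_PT (R := R)).aff {p // p ∈ S}
    exact Holds.congr ⟨_, inferInstance, inferInstance, ft_loc _ _, _, h1.unit (dU S) rfl,
      h n S hS⟩ (isoU S)
  exact (holds_GLU hP h0 _ S ∅ hS (Finset.empty_subset S) le_rfl).congr (emptyIso S)

end

/-! ### The theorem -/

/-- Square matrices with prescribed zeros: the sets of positions. -/
abbrev Ind : Type := Σ n : ℕ, Finset (Fin n × Fin n)

/-- The four kinds of schemes. -/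
noncomputable def kinds (R : Type) [CommRing R] : Fin 4 → Ind → Sch R :=
  ![fun S => invS R S.2, fun S => oneS R S.2, fun S => zeroS R S.2, fun S => torS R S.2]

variable {R : Type} [CommRing R] {sep : Prop} {P : Sch R → Prop}

lemma ft_inv {n : ℕ} (S : Finset (Fin n × Fin n)) : FT sep (invS R S) := by
  have := ft_loc (R := R) (MvPolynomial {p // p ∈ S} R) (detS R S)
  exact ft_aff sep

lemma ft_one {n : ℕ} (S : Finset (Fin n × Fin n)) : FT sep (oneS R S) := ft_aff sep

lemma ft_zero {n : ℕ} (S : Finset (Fin n × Fin n)) : FT sep (zeroS R S) := ft_aff sep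

lemma ft_tor {n : ℕ} (S : Finset (Fin n × Fin n)) : FT sep (torS R S) := by
  have := ft_loc (R := R) (MvPolynomial {p // p ∈ S} R) (detS R S * ∏ p, MvPolynomial.X p)
  exact ft_aff sep

lemma ft_kinds (c : Fin 4) (S : Ind) : FT sep (kinds R c S) := by
  fin_cases c
  · exact ft_inv S.2
  · exact ft_one S.2
  · exact ft_zero S.2
  · exact ft_tor S.2

/-- **Matrices with at most three free entries in each row and column are universal.** -/
theorem universal_kinds (hR : Presents ({0, 1} : Set R)) :
    Universal sep (fun S : Ind => Sparse S.2) (kinds R) := by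
  intro c P hP h X hX
  refine universal_GL hP hR ?_ X hX
  intro n S hS
  fin_cases c
  · exact holds_inv S (h ⟨n, S⟩ hS)
  · exact holds_one hP S (h ⟨n, S⟩ hS)
  · exact holds_zero hP S (h ⟨n, S⟩ hS)
  · exact holds_tor hP (fun n S hS => h ⟨n, S⟩ hS) n S hS

end Pool.Agent.Helper3.GM
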