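import Pool.Agent.Helper3.GM.Full

/-!
# Splitting rows
-/

set_option autoImplicit false

open CategoryTheory AlgebraicGeometry Pool.Agent.Y116.UV Pool.Agent.Q282.UK Matrix
  Pool.Agent.Helper3.GU

namespace Pool.Agent.Helper3.GM

/-- The invertible matrices with zeros outside of `S`. -/
def GL0 {V : Type} [Fintype V] [DecidableEq V] (S : V → V → Prop) : PF where
  pts C _ := {N : Matrix V V C // (∀ a b, ¬ S a b → N a b = 0) ∧ IsUnit N.det}
  map f N := ⟨N.1.map f, fun a b h => by
    change f _ = 0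
    rw [N.2.1 a b h, map_zero], by
    rw [GU.det_map]
    exact N.2.2.map f⟩
  map_id _ := rfl
  map_comp _ _ _ := rfl

section

variable {V : Type} [Fintype V] [DecidableEq V]

/-- the functor of a pattern without vectors -/
def isoGT (q : GPat V PEmpty) : PIso (GL0 q.adj) ((GT q).unit (detG q)) where
  fwd N := ⟨⟨(N.1, fun k => k.elim), N.2.1, fun k => k.elim, fun k => k.elim⟩, N.2.2⟩
  bwd x := ⟨x.1.1.1, x.1.2.zero, x.2⟩
  left _ := rfl
  right x := by
    apply Subtype.ext
    apply Subtype.ext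
    apply Prod.ext
    · rfl
    · funext k
      exact k.elim
  nat f x := by
    apply Subtype.ext
    apply Subtype.ext
    apply Prod.ext
    · rfl
    · funext k
      exact k.elim

variable {R : Type} [CommRing R] {sep : Prop} {P : Sch R → Prop}

lemma base_of_GL0 (h : ∀ (V : Type) [Fintype V] [DecidableEq V] (S : V → V → Prop),
    Holds P (GL0 S)) : GBase P :=
  fun V _ _ q => (h V q.adj).congr (isoGT q)

/-- the pattern without vectors -/
def noVec (S : V → V → Prop) : GPat V PEmpty := ⟨S, fun k => k.elim, fun k => k.elim⟩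

lemma hasRep_GL0 (S : V → V → Prop) : HasRep R (GL0 S) :=
  ((hasRep_GT (noVec S)).unit (detG (noVec S))).congr (isoGT (noVec S)).symm

/-- transposition -/
def trIso (S : V → V → Prop) : PIso (GL0 S) (GL0 fun a b => S b a) where
  fwd N := ⟨N.1ᵀ, fun a b h => N.2.1 b a h, by rw [det_transpose]; exact N.2.2⟩
  bwd N := ⟨N.1ᵀ, fun a b h => N.2.1 b a h, by rw [det_transpose]; exact N.2.2⟩
  left _ := rfl
  right _ := rfl
  nat _ _ := rfl

/-! ### Splitting a row -/

/-- The determinant of the matrix with a split row. -/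
lemma det_split {C : Type} [CommRing C] (M : Matrix V V C) (i : V) (w : V → C) (α β : C) :
    (bd M (Pi.single i α) w β).det = β * M.det - α * (updateRow M i w).det := by
  rw [det_bd]
  congr 1
  have h1 : ∀ j, (M.adjugate *ᵥ Pi.single i α) j = M.adjugate j i * α := fun j => by
    rw [mulVec_single]
    simp
  rw [dotProduct]
  simp only [h1]
  have h2 : (updateRow M i w).det = ∑ j, w j * M.adjugate j i := by
    have h3 := det_eq_sum_mul_adjugate_row (updateRow M i w) i
    rw [h3]
    apply Finset.sum_congr rfl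
    intro j _
    rw [updateRow_self]
    congr 1
    rw [adjugate_apply, adjugate_apply, updateRow_idem]
  rw [h2, Finset.mul_sum]
  apply Finset.sum_congr rfl
  intro j _
  ring

variable (S : V → V → Prop) (i : V) (A : V → Prop)

/-- the row `i` is restricted to `A` -/
def keep : V → V → Prop := fun a b => S a b ∧ (a = i → A b)

/-- the pattern with the split row -/
def split : V ⊕ Unit → V ⊕ Unit → Prop := fun a b =>
  Sum.elim (fun a => Sum.elim (fun b => keep S i A a b) (fun _ => a = i) b)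
    (fun _ => Sum.elim (fun b => S i b ∧ ¬ A b) (fun _ => True) b) a

/-- the matrices with a split row -/
def SP : PF where
  pts C _ := {x : Matrix V V C × (V → C) × C × C // (∀ a b, ¬ keep S i A a b → x.1 a b = 0) ∧
    (∀ b, ¬ (S i b ∧ ¬ A b) → x.2.1 b = 0) ∧
    IsUnit (x.2.2.2 * x.1.det - x.2.2.1 * (updateRow x.1 i x.2.1).det)}
  map f x := ⟨(x.1.1.map f, (fun b => f (x.1.2.1 b)), f x.1.2.2.1, f x.1.2.2.2), fun a b h => by
    change f _ = 0
    rw [x.2.1 a b h, map_zero], fun b h => by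
    change f _ = 0
    rw [x.2.2.1 b h, map_zero], by
    have h := x.2.2.2.map f
    rw [map_sub, map_mul, map_mul, ← GU.det_map, ← GU.det_map, map_updateRow] at h
    exact h⟩
  map_id _ := rfl
  map_comp _ _ _ := rfl

/-- the split pattern -/
def splitIso : PIso (GL0 (split S i A)) (SP S i A) where
  fwd {C} _ N := ⟨(N.1.submatrix Sum.inl Sum.inl, (fun b => N.1 (Sum.inr ()) (Sum.inl b)),
      N.1 (Sum.inl i) (Sum.inr ()), N.1 (Sum.inr ()) (Sum.inr ())),
      fun a b h => N.2.1 (Sum.inl a) (Sum.inl b) h, fun b h => N.2.1 (Sum.inr ()) (Sum.inl b) h, by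
      have h := N.2.2
      rw [← bd_of N.1] at h
      have h1 : (fun v => N.1 (Sum.inl v) (Sum.inr ())) =
          Pi.single i (N.1 (Sum.inl i) (Sum.inr ())) := by
        funext v
        by_cases hv : v = i
        · subst hv
          rw [Pi.single_eq_same]
        · rw [Pi.single_eq_of_ne hv]
          exact N.2.1 (Sum.inl v) (Sum.inr ()) hv
      rw [h1, det_split] at h
      exact h⟩
  bwd {C} _ x := ⟨bd x.1.1 (Pi.single i x.1.2.2.1) x.1.2.1 x.1.2.2.2, by
      rintro (a | a) (b | b) h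
      · exact x.2.1 a b h
      · exact Pi.single_eq_of_ne h _
      · exact x.2.2.1 b h
      · exact absurd trivial h, by
      rw [det_split]
      exact x.2.2.2⟩
  left {C} _ N := by
    apply Subtype.ext
    ext a b
    rcases a with a | a <;> rcases b with b | b
    · rfl
    · by_cases h : a = i
      · subst h
        exact Pi.single_eq_same _ _
      · rw [N.2.1 (Sum.inl a) (Sum.inr ()) h]
        exact Pi.single_eq_of_ne h _
    · rfl
    · rfl
  right {C} _ x := by
    apply Subtype.ext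
    apply Prod.ext
    · rfl
    · apply Prod.ext
      · rfl
      · apply Prod.ext
        · exact Pi.single_eq_same _ _
        · rfl
  nat _ _ := rfl

/-- the first entry of the new column -/
def nα : NF (SP S i A) := ⟨fun x => x.1.2.2.1, fun _ _ => rfl⟩

/-- the second entry of the new column -/
def nβ : NF ((SP S i A).unit (nα S i A)) := ⟨fun x => x.1.1.2.2.2, fun _ _ => rfl⟩

/-- the first entry is zero -/
noncomputable def alphaZero : PIso ((SP S i A).zero (nα S i A))
    (((GL0 (keep S i A)).aff {b // S i b ∧ ¬ A b}).tor PUnit) where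
  fwd {C} _ x := ((⟨x.1.1.1, x.1.2.1, by
      have h := x.1.2.2.2
      have h0 : x.1.1.2.2.1 = 0 := x.2
      rw [h0, zero_mul, sub_zero] at h
      exact (IsUnit.mul_iff.1 h).2⟩, fun b => x.1.1.2.1 b.1), fun _ => (show IsUnit x.1.1.2.2.2 by
      have h := x.1.2.2.2
      have h0 : x.1.1.2.2.1 = 0 := x.2
      rw [h0, zero_mul, sub_zero] at h
      exact (IsUnit.mul_iff.1 h).1).unit)
  bwd {C} _ y := ⟨⟨(y.1.1.1, ext0 _ y.1.2, 0, ((y.2 ⟨⟩ : Cˣ) : C)), y.1.1.2.1,
      fun b h => by
      change ext0 (fun b => S i b ∧ ¬ A b) y.1.2 b = 0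
      exact ext0_not _ b h, by
      rw [zero_mul, sub_zero]
      exact (Units.isUnit _).mul y.1.1.2.2⟩, rfl⟩
  left {C} _ x := by
    apply Subtype.ext
    apply Subtype.ext
    apply Prod.ext
    · rfl
    · apply Prod.ext
      · exact ext0_res _ x.1.2.2.1
      · apply Prod.ext
        · have h0 : x.1.1.2.2.1 = 0 := x.2
          exact h0.symm
        · rfl
  right {C} _ y := by
    apply Prod.ext
    · apply Prod.ext
      · rfl
      · funext b
        exact ext0_of _ b
    · funext _
      exact Units.ext rfl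
  nat f x := by
    apply Prod.ext
    · rfl
    · funext _
      exact Units.ext rfl

/-- the complement of `A` in the row `i` -/
abbrev drop : V → V → Prop := keep S i fun b => ¬ A b

variable {S i A}

omit [Fintype V] in
lemma keep_upd {C : Type} [CommRing C] {M : Matrix V V C} {w : V → C} {B B' : V → Prop}
    (hM : ∀ a b, ¬ keep S i B a b → M a b = 0) (hw : ∀ b, ¬ (S i b ∧ B' b) → w b = 0) (a b : V)
    (h : ¬ keep S i B' a b) : updateRow M i w a b = 0 := by
  by_cases ha : a = i
  · subst ha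
    rw [updateRow_self]
    exact hw b fun h1 => h ⟨h1.1, fun _ => h1.2⟩
  · rw [updateRow_ne ha]
    exact hM a b fun h1 => h ⟨h1.1, fun h2 => absurd h2 ha⟩

variable (S i A)

omit [Fintype V] in
lemma upd_upd {C : Type} [CommRing C] (M : Matrix V V C) (w v : V → C) (h : v = M i) :
    updateRow (updateRow M i w) i v = M := by
  rw [updateRow_idem, h]
  exact updateRow_eq_self M i

/-- the second entry is zero -/
noncomputable def betaZero : PIso (((SP S i A).unit (nα S i A)).zero (nβ S i A))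
    (((GL0 (drop S i A)).aff {b // S i b ∧ A b}).tor PUnit) where
  fwd {C} _ x := ((⟨updateRow x.1.1.1.1 i x.1.1.1.2.1, keep_upd x.1.1.2.1 x.1.1.2.2.1, by
      have h := x.1.1.2.2.2
      have h0 : x.1.1.1.2.2.2 = 0 := x.2
      rw [h0, zero_mul, zero_sub, IsUnit.neg_iff] at h
      exact (IsUnit.mul_iff.1 h).2⟩, fun b => x.1.1.1.1 i b.1), fun _ => x.1.2.unit)
  bwd {C} _ y := ⟨⟨⟨(updateRow y.1.1.1 i (ext0 _ y.1.2), (fun b => y.1.1.1 i b),
      ((y.2 ⟨⟩ : Cˣ) : C), 0), keep_upd y.1.1.2.1 (fun b h => ext0_not _ b h),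
      fun b h => y.1.1.2.1 i b fun h1 => h ⟨h1.1, h1.2 rfl⟩, by
      rw [zero_mul, zero_sub, IsUnit.neg_iff]
      have h1 : updateRow (updateRow y.1.1.1 i (ext0 (fun b => S i b ∧ A b) y.1.2)) i
          (fun b => y.1.1.1 i b) = y.1.1.1 := upd_upd i _ _ _ rfl
      change IsUnit (((y.2 ⟨⟩ : Cˣ) : C) * (updateRow (updateRow y.1.1.1 i
        (ext0 (fun b => S i b ∧ A b) y.1.2)) i (fun b => y.1.1.1 i b)).det)
      rw [h1]
      exact (Units.isUnit _).mul y.1.1.2.2⟩, Units.isUnit _⟩, rfl⟩
  left {C} _ x := by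
    have hr : ext0 (fun b => S i b ∧ A b) (fun b : {b // S i b ∧ A b} => x.1.1.1.1 i b.1) =
        x.1.1.1.1 i :=
      ext0_res _ fun b h => x.1.1.2.1 i b fun h1 => h ⟨h1.1, h1.2 rfl⟩
    apply Subtype.ext
    apply Subtype.ext
    apply Subtype.ext
    apply Prod.ext
    · exact upd_upd i _ _ _ hr
    · apply Prod.ext
      · exact updateRow_self
      · apply Prod.ext
        · rfl
        · have h0 : x.1.1.1.2.2.2 = 0 := x.2
          exact h0.symm
  right {C} _ y := by
    apply Prod.ext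
    · apply Prod.ext
      · apply Subtype.ext
        exact upd_upd i _ _ _ rfl
      · funext b
        change updateRow y.1.1.1 i (ext0 _ y.1.2) i b.1 = _
        rw [updateRow_self]
        exact ext0_of _ b
    · funext _
      exact Units.ext rfl
  nat {C D} _ _ f x := by
    apply Prod.ext
    · apply Prod.ext
      · apply Subtype.ext
        exact (map_updateRow f).symm
      · rfl
    · funext _
      exact Units.ext rfl

open Classical in
/-- the restriction of a vector to `A` -/
noncomputable def rs {C : Type} [CommRing C] (B : V → Prop) (t : C) (v : V → C) : V → C :=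
  fun b => if B b then t * v b else 0

lemma det_comb {C : Type} [CommRing C] (M : Matrix V V C) (i : V) (w : V → C) (α β : C) :
    (updateRow M i fun b => β * M i b - α * w b).det =
      β * M.det - α * (updateRow M i w).det := by
  have h1 : (fun b => β * M i b - α * w b) = β • M i + (-α) • w := by
    funext b
    change _ = β * M i b + -α * w b
    ring
  rw [h1, det_updateRow_add, det_updateRow_smul, det_updateRow_smul, updateRow_eq_self]
  ring

/-- both entries are invertible -/
noncomputable def bothUnit : PIso (((SP S i A).unit (nα S i A)).unit (nβ S i A))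
    (((GL0 S).tor PUnit).tor PUnit) where
  fwd {C} _ x := ((⟨updateRow x.1.1.1.1 i fun b => x.1.1.1.2.2.2 * x.1.1.1.1 i b -
      x.1.1.1.2.2.1 * x.1.1.1.2.1 b, fun a b h => by
      by_cases ha : a = i
      · subst ha
        rw [updateRow_self, x.1.1.2.1 a b fun h1 => h h1.1, x.1.1.2.2.1 b fun h1 => h h1.1]
        ring
      · rw [updateRow_ne ha]
        exact x.1.1.2.1 a b fun h1 => h h1.1, by
      rw [det_comb]
      exact x.1.1.2.2.2⟩, fun _ => x.1.2.unit), fun _ => x.2.unit)
  bwd {C} _ y := ⟨⟨⟨(updateRow y.1.1.1 i (rs A (((y.2 ⟨⟩)⁻¹ : Cˣ) : C) (y.1.1.1 i)),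
      rs (fun b => ¬ A b) (-(((y.1.2 ⟨⟩)⁻¹ : Cˣ) : C)) (y.1.1.1 i),
      ((y.1.2 ⟨⟩ : Cˣ) : C), ((y.2 ⟨⟩ : Cˣ) : C)), fun a b h => by
      by_cases ha : a = i
      · subst ha
        change updateRow _ _ _ a b = 0
        rw [updateRow_self, rs]
        split_ifs with hA
        · rw [y.1.1.2.1 a b fun h1 => h ⟨h1, fun _ => hA⟩, mul_zero]
        · rfl
      · change updateRow _ _ _ a b = 0
        rw [updateRow_ne ha]
        exact y.1.1.2.1 a b fun h1 => h ⟨h1, fun h2 => absurd h2 ha⟩, fun b h => by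
      change rs (fun b => ¬ A b) (-(((y.1.2 ⟨⟩)⁻¹ : Cˣ) : C)) (y.1.1.1 i) b = 0
      rw [rs]
      by_cases hA : A b
      · exact if_neg (not_not.2 hA)
      · rw [if_pos hA, y.1.1.2.1 i b fun h1 => h ⟨h1, hA⟩, mul_zero], by
      rw [← det_comb]
      have h1 : (updateRow (updateRow y.1.1.1 i (rs A (((y.2 ⟨⟩)⁻¹ : Cˣ) : C) (y.1.1.1 i))) i
          fun b => ((y.2 ⟨⟩ : Cˣ) : C) *
            updateRow y.1.1.1 i (rs A (((y.2 ⟨⟩)⁻¹ : Cˣ) : C) (y.1.1.1 i)) i b -
            ((y.1.2 ⟨⟩ : Cˣ) : C) *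
              rs (fun b => ¬ A b) (-(((y.1.2 ⟨⟩)⁻¹ : Cˣ) : C)) (y.1.1.1 i) b) = y.1.1.1 := by
        apply upd_upd
        funext b
        rw [updateRow_self, rs, rs]
        by_cases hA : A b
        · rw [if_pos hA, if_neg (not_not.2 hA), mul_zero, sub_zero, ← mul_assoc, Units.mul_inv,
            one_mul]
        · rw [if_neg hA, if_pos hA, mul_zero, zero_sub, ← mul_assoc, mul_neg, neg_mul, neg_neg,
            Units.mul_inv, one_mul]
      change IsUnit (updateRow (updateRow y.1.1.1 i (rs A (((y.2 ⟨⟩)⁻¹ : Cˣ) : C) (y.1.1.1 i))) i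
          fun b => ((y.2 ⟨⟩ : Cˣ) : C) *
            updateRow y.1.1.1 i (rs A (((y.2 ⟨⟩)⁻¹ : Cˣ) : C) (y.1.1.1 i)) i b -
            ((y.1.2 ⟨⟩ : Cˣ) : C) *
              rs (fun b => ¬ A b) (-(((y.1.2 ⟨⟩)⁻¹ : Cˣ) : C)) (y.1.1.1 i) b).det
      rw [h1]
      exact y.1.1.2.2⟩, Units.isUnit _⟩, Units.isUnit _⟩
  left {C} _ x := by
    apply Subtype.ext
    apply Subtype.ext
    apply Subtype.ext
    have hα : ((x.1.2.unit⁻¹ : Cˣ) : C) * x.1.1.1.2.2.1 = 1 := x.1.2.val_inv_mul
    have hβ : ((x.2.unit⁻¹ : Cˣ) : C) * x.1.1.1.2.2.2 = 1 := x.2.val_inv_mul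
    have h1 : updateRow x.1.1.1.1 i (fun b => x.1.1.1.2.2.2 * x.1.1.1.1 i b -
      x.1.1.1.2.2.1 * x.1.1.1.2.1 b) i = fun b => x.1.1.1.2.2.2 * x.1.1.1.1 i b -
      x.1.1.1.2.2.1 * x.1.1.1.2.1 b := updateRow_self
    apply Prod.ext
    · apply upd_upd
      change rs A ((x.2.unit⁻¹ : Cˣ) : C) (updateRow x.1.1.1.1 i (fun b => x.1.1.1.2.2.2 *
        x.1.1.1.1 i b - x.1.1.1.2.2.1 * x.1.1.1.2.1 b) i) = x.1.1.1.1 i
      rw [h1]
      funext b
      rw [rs]
      by_cases hA : A b
      · rw [if_pos hA, x.1.1.2.2.1 b fun h => h.2 hA]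
        linear_combination (x.1.1.1.1 i b) * hβ
      · rw [if_neg hA, x.1.1.2.1 i b fun h => hA (h.2 rfl)]
    · apply Prod.ext
      · change rs (fun b => ¬ A b) (-((x.1.2.unit⁻¹ : Cˣ) : C)) (updateRow x.1.1.1.1 i
          (fun b => x.1.1.1.2.2.2 * x.1.1.1.1 i b - x.1.1.1.2.2.1 * x.1.1.1.2.1 b) i) =
          x.1.1.1.2.1
        rw [h1]
        funext b
        rw [rs]
        by_cases hA : A b
        · rw [if_neg (not_not.2 hA), x.1.1.2.2.1 b fun h => h.2 hA]
        · rw [if_pos hA, x.1.1.2.1 i b fun h => hA (h.2 rfl)]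
          linear_combination (x.1.1.1.2.1 b) * hα
      · rfl
  right {C} _ y := by
    have h1 : (updateRow (updateRow y.1.1.1 i (rs A (((y.2 ⟨⟩)⁻¹ : Cˣ) : C) (y.1.1.1 i))) i
          fun b => ((y.2 ⟨⟩ : Cˣ) : C) *
            updateRow y.1.1.1 i (rs A (((y.2 ⟨⟩)⁻¹ : Cˣ) : C) (y.1.1.1 i)) i b -
            ((y.1.2 ⟨⟩ : Cˣ) : C) *
              rs (fun b => ¬ A b) (-(((y.1.2 ⟨⟩)⁻¹ : Cˣ) : C)) (y.1.1.1 i) b) = y.1.1.1 := by
      apply upd_upd
      funext b
      rw [updateRow_self, rs, rs]
      by_cases hA : A b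
      · rw [if_pos hA, if_neg (not_not.2 hA), mul_zero, sub_zero, ← mul_assoc, Units.mul_inv,
          one_mul]
      · rw [if_neg hA, if_pos hA, mul_zero, zero_sub, ← mul_assoc, mul_neg, neg_mul, neg_neg,
          Units.mul_inv, one_mul]
    apply Prod.ext
    · apply Prod.ext
      · apply Subtype.ext
        exact h1
      · funext _
        exact Units.ext rfl
    · funext _
      exact Units.ext rfl
  nat {C D} _ _ f x := by
    apply Prod.ext
    · apply Prod.ext
      · apply Subtype.ext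
        change updateRow (x.1.1.1.1.map f) i (fun b => f x.1.1.1.2.2.2 * f (x.1.1.1.1 i b) -
          f x.1.1.1.2.2.1 * f (x.1.1.1.2.1 b)) = (updateRow x.1.1.1.1 i _).map f
        rw [map_updateRow]
        congr 1
        funext b
        change _ = f (_ - _)
        rw [map_sub, map_mul, map_mul]
      · funext _
        exact Units.ext rfl
    · funext _
      exact Units.ext rfl

/-- **Splitting a row.** -/
theorem holds_split (hP : Mot sep P) (h : Holds P (GL0 (split S i A)))
    (h1 : Holds P (GL0 (keep S i A))) (h2 : Holds P (GL0 (drop S i A))) : Holds P (GL0 S) := by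
  have h3 := h.congr (splitIso S i A)
  have h4 : Holds P ((SP S i A).unit (nα S i A)) :=
    h3.opened hP _ (((h1.aff hP _).tor hP PUnit).congr (alphaZero S i A).symm)
  have h5 : Holds P (((SP S i A).unit (nα S i A)).unit (nβ S i A)) :=
    h4.opened hP _ (((h2.aff hP _).tor hP PUnit).congr (betaZero S i A).symm)
  exact ((h5.congr (bothUnit S i A)).of_tor hP ((hasRep_GL0 S).tor _)).of_tor hP (hasRep_GL0 S)

end

end Pool.Agent.Helper3.GM
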